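import Pool.Agent.TH966.HD.Abs
import Pool.Agent.TH966.HD.Energy
import Pool.Agent.TH966.CF.FSD

/-!
A random compact set and fixed sets: from two-sided bounds for the hitting probabilities of balls,
the capacity lower bound for the hitting probability of a compact set and the essential supremum of
the dimension of the intersection.
-/

set_option autoImplicit false

namespace Pool.Agent.TH966.GB

open MeasureTheory Filter Topology Metric Set
open scoped ENNReal NNReal
open Pool.Agent.TH966.HD (Hit hit_prob dim_prob energy disc energy_frostman frostman_complex)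

variable {Ω : Type*} [MeasurableSpace Ω]

/-- One-point lower bound and two-point upper bound for the random set `K`, with exponent `α`, at
the points of `A` and the radii up to `r0`. -/
structure Bds (μ : Measure Ω) (K : Ω → Set ℂ) (α : ℝ) (A : Set ℂ) (c C r0 : ℝ) : Prop where
  one : ∀ z ∈ A, ∀ r, 0 < r → r ≤ r0 → c * r ^ α ≤ μ.real (Hit K z r)
  two : ∀ z ∈ A, ∀ w ∈ A, ∀ r, 0 < r → r ≤ r0 →
    μ.real (Hit K z r ∩ Hit K w r) ≤ C * r ^ (2 * α) * (max (dist z w) r) ^ (-α)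

theorem energy_ne_zero {S : Set ℂ} (hS : IsCompact S) {ν : Measure ℂ} [IsProbabilityMeasure ν]
    (hν : ν Sᶜ = 0) {β : ℝ} (hβ : 0 < β) : energy β ν ≠ 0 := by
  obtain ⟨M, hM⟩ := Metric.isBounded_iff.mp hS.isBounded
  have hM1 : 0 < max M 1 := by positivity
  have hae : ∀ᵐ x ∂ν, x ∈ S := by
    rw [ae_iff]
    exact hν
  have h1 : (ENNReal.ofReal (max M 1)) ^ (-β) ≤ energy β ν := by
    unfold energy
    calc (ENNReal.ofReal (max M 1)) ^ (-β)
        = ∫⁻ _, ∫⁻ _, (ENNReal.ofReal (max M 1)) ^ (-β) ∂ν ∂ν := by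
          simp only [lintegral_const, measure_univ, mul_one]
      _ ≤ _ := by
          refine lintegral_mono_ae ?_
          filter_upwards [hae] with x hx
          refine lintegral_mono_ae ?_
          filter_upwards [hae] with y hy
          rw [ENNReal.rpow_neg, ENNReal.rpow_neg]
          apply ENNReal.inv_le_inv.mpr
          apply ENNReal.rpow_le_rpow _ hβ.le
          rw [edist_dist]
          exact ENNReal.ofReal_le_ofReal ((hM hx hy).trans (le_max_left _ _))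
  intro h0
  rw [h0, nonpos_iff_eq_zero, ENNReal.rpow_eq_zero_iff] at h1
  rcases h1 with h | h
  · have := h.1
    rw [ENNReal.ofReal_eq_zero] at this
    linarith
  · exact absurd h.1 ENNReal.ofReal_ne_top

variable {μ : Measure Ω} [IsProbabilityMeasure μ] {K : Ω → Set ℂ}

/-- Capacity lower bound for the probability to meet a compact set. -/
theorem cap_gen (hK : ∀ ω, IsCompact (K ω)) (hm : ∀ z r, MeasurableSet (Hit K z r)) {α : ℝ}
    (hα : 0 < α) {A : Set ℂ} {c C r0 : ℝ} (hc : 0 < c) (hC : 0 < C) (hr0 : 0 < r0)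
    (hb : Bds μ K α A c C r0) {S : Set ℂ} (hS : IsCompact S) (hSA : S ⊆ A)
    {ν : Measure ℂ} [IsProbabilityMeasure ν] (hν0 : ν Sᶜ = 0) :
    ENNReal.ofReal (c ^ 2 / (8 * (C * 3 ^ α))) / energy α ν ≤ μ {ω | (K ω ∩ S).Nonempty} := by
  by_cases htop : energy α ν = ⊤
  · rw [htop, ENNReal.div_top]
    exact zero_le
  have hne := energy_ne_zero hS hν0 hα
  have hE0 : 0 < (energy α ν).toReal := ENNReal.toReal_pos hne htop
  have key := hit_prob (μ := μ) K hK hm hS (α := α) hc hC hr0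
    (I := 3 ^ α * (energy α ν).toReal) (by positivity)
    (fun z hz r hr hr1 => hb.one z (hSA hz) r hr hr1)
    (fun z hz w hw r hr hr1 => hb.two z (hSA hz) w (hSA hw) r hr hr1)
    (fun r hr _ => by
      obtain ⟨T, w, hT, hw, hw1, hb⟩ := disc hS hν0 hr
      exact ⟨T, w, hT, hw, hw1, hb α hα.le htop⟩)
  have e : ENNReal.ofReal (c ^ 2 / (8 * (C * 3 ^ α))) / energy α ν =
      ENNReal.ofReal (c ^ 2 / (8 * (C * (3 ^ α * (energy α ν).toReal)))) := by
    conv_lhs => rw [← ENNReal.ofReal_toReal htop]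
    rw [← ENNReal.ofReal_div_of_pos hE0]
    congr 1
    field_simp
  rw [e]
  exact key

/-- Positive probability of large dimension. -/
theorem dim_pos (hK : ∀ ω, IsCompact (K ω)) (hm : ∀ z r, MeasurableSet (Hit K z r)) {α : ℝ}
    (hα : 0 < α) {S : Set ℂ} (hS : IsCompact S) {c C r0 : ℝ} (hc : 0 < c) (hC : 0 < C)
    (hr0 : 0 < r0) (hb : Bds μ K α S c C r0) {t : ℝ} (ht : 0 < t)
    (h : ENNReal.ofReal (t + α) < dimH S) :
    0 < μ {ω | ENNReal.ofReal t ≤ dimH (K ω ∩ S)} := by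
  obtain ⟨s, hs0, hs1, hs2⟩ := ENNReal.lt_iff_exists_real_btwn.mp h
  have hts : t + α < s := (ENNReal.ofReal_lt_ofReal_iff_of_nonneg (by linarith)).mp hs1
  obtain ⟨ν, hν, hν0, C3, hC3, hfr⟩ := frostman_complex hS hs0 hs2
  have e1 := energy_frostman hC3 (β := α) hα (by linarith) hfr
  have e2 := energy_frostman hC3 (β := α + t) (by linarith) (by linarith) hfr
  have hI : 0 < 3 ^ α * (energy α ν).toReal := by
    have := ENNReal.toReal_pos (energy_ne_zero hS hν0 hα) e1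
    positivity
  have hJ : 0 < 3 ^ (α + t) * (energy (α + t) ν).toReal := by
    have := ENNReal.toReal_pos (energy_ne_zero hS hν0 (show (0:ℝ) < α + t by linarith)) e2
    positivity
  have key := dim_prob (μ := μ) K hK hm hS (α := α) ht hc hC
    hr0 hI hJ (fun z hz r hr hr1 => hb.one z hz r hr hr1)
    (fun z hz w hw r hr hr1 => hb.two z hz w hw r hr hr1)
    (fun r hr _ => by
      obtain ⟨T, w, hT, hw, hw1, hb⟩ := disc hS hν0 hr
      exact ⟨T, w, hT, hw, hw1, hb α hα.le e1, hb (α + t) (by linarith) e2⟩)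
  refine lt_of_lt_of_le ?_ key
  rw [ENNReal.ofReal_pos]
  positivity

omit [IsProbabilityMeasure μ] in
theorem one_up [IsFiniteMeasure μ] {α : ℝ} (hα : 0 < α) {A : Set ℂ} {c C r0 : ℝ} (hC : 0 < C)
    (hb : Bds μ K α A c C r0) {z : ℂ} (hz : z ∈ A) {r : ℝ} (hr : 0 < r) (hr1 : r ≤ r0) :
    μ (Hit K z r) ≤ ENNReal.ofReal C * ENNReal.ofReal r ^ α := by
  have h := hb.two z hz z hz r hr hr1
  rw [Set.inter_self, dist_self, max_eq_right hr.le, mul_assoc, ← Real.rpow_add hr,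
    show 2 * α + -α = α by ring] at h
  rw [ENNReal.ofReal_rpow_of_pos hr, ← ENNReal.ofReal_mul hC.le]
  rw [← ENNReal.ofReal_toReal (measure_ne_top μ (Hit K z r))]
  exact ENNReal.ofReal_le_ofReal h

/-- Upper bounds on a compact set. -/
theorem up_gen (hm : ∀ z r, MeasurableSet (Hit K z r)) {α : ℝ}
    (hα : 0 < α) {A : Set ℂ} {c C r0 : ℝ} (hC : 0 < C) (hr0 : 0 < r0)
    (hb : Bds μ K α A c C r0) {T : Set ℂ} (hT : T ⊆ A) :
    ∀ᵐ ω ∂μ, dimH (K ω ∩ T) ≤ dimH T - ENNReal.ofReal α ∧ (μH[α] T = 0 → K ω ∩ T = ∅) := by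
  refine Pool.Agent.TH966.CF.dim_inter hα isOpen_univ (Set.subset_univ T) hm (fun n => ?_)
  refine ⟨ENNReal.ofReal C, r0, ENNReal.ofReal_ne_top, hr0, ?_⟩
  rintro z ⟨hz, -⟩ r hr hr1
  exact one_up hα hC hb (hT hz) hr hr1

/-- Upper bound for the probability to meet a set by coverings (Hausdorff content). -/
theorem content_gen {α : ℝ} (hα : 0 < α) {A : Set ℂ} {c C r0 : ℝ} (hC : 0 < C) (hr0 : 0 < r0)
    (hb : Bds μ K α A c C r0) {T : Set ℂ} (hT : T ⊆ A) (t : ℕ → Set ℂ) (ht : T ⊆ ⋃ n, t n) :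
    μ {ω | (K ω ∩ T).Nonempty} ≤ ENNReal.ofReal (max C (r0 ^ (-α))) * ∑' n, ediam (t n) ^ α := by
  obtain ⟨M, hM⟩ : ∃ M, M = max C (r0 ^ (-α)) := ⟨_, rfl⟩
  have hM0 : 0 < M := by rw [hM]; exact lt_max_of_lt_left hC
  rw [← hM]
  have hbB : ∀ z ∈ T, ∀ r, 0 < r → r ≤ r0 →
      μ (Pool.Agent.TH966.CF.Hit K z r) ≤ ENNReal.ofReal C * ENNReal.ofReal r ^ α :=
    fun z hz r hr hr1 => one_up hα hC hb (hT hz) hr hr1
  by_cases hfin : ∀ n, ediam (t n) ≠ ∞
  · have hsub : {ω | (K ω ∩ T).Nonempty} ⊆ ⋃ n, Pool.Agent.TH966.CF.Ev K T (t n) := by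
      rintro ω ⟨y, hy⟩
      obtain ⟨n, hn⟩ := mem_iUnion.mp (ht hy.2)
      exact mem_iUnion.mpr ⟨n, Pool.Agent.TH966.CF.mem_Ev (hfin n) ⟨y, hy, hn⟩⟩
    refine (measure_mono hsub).trans ((measure_iUnion_le _).trans ?_)
    rw [← ENNReal.tsum_mul_left]
    refine ENNReal.tsum_le_tsum fun n => ?_
    by_cases h1 : ediam (t n) ≤ ENNReal.ofReal r0
    · refine (Pool.Agent.TH966.CF.Ev_le hα hr0 ENNReal.ofReal_ne_top hbB h1).trans ?_
      refine iSup_le fun _ => ?_
      gcongr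
      rw [hM]
      exact le_max_left _ _
    · push Not at h1
      refine prob_le_one.trans ?_
      have h2 : ENNReal.ofReal r0 ^ α ≤ ediam (t n) ^ α := ENNReal.rpow_le_rpow h1.le hα.le
      have h3 : (1 : ℝ≥0∞) ≤ ENNReal.ofReal M * ENNReal.ofReal r0 ^ α := by
        rw [ENNReal.ofReal_rpow_of_pos hr0, ← ENNReal.ofReal_mul hM0.le]
        rw [ENNReal.one_le_ofReal]
        have h4 : r0 ^ (-α) ≤ M := by rw [hM]; exact le_max_right _ _
        have h5 : r0 ^ (-α) * r0 ^ α = 1 := by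
          rw [← Real.rpow_add hr0]; simp
        rw [← h5]
        gcongr
      exact h3.trans (by gcongr)
  · push Not at hfin
    obtain ⟨n, hn⟩ := hfin
    have h2 : ∑' n, ediam (t n) ^ α = ∞ := by
      apply ENNReal.tsum_eq_top_of_eq_top
      exact ⟨n, by rw [hn, ENNReal.top_rpow_of_pos hα]⟩
    rw [h2, ENNReal.mul_top (by simpa using hM0)]
    exact le_top

/-- Essential supremum of the dimension of the intersection with a fixed set. -/
theorem ess_gen (hK : ∀ ω, IsCompact (K ω)) (hm : ∀ z r, MeasurableSet (Hit K z r)) {α : ℝ}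
    (hα : 0 < α) {S : Set ℂ} (hS : IsSigmaCompact S)
    (hb : ∀ A ⊆ S, IsCompact A → ∃ c C r0 : ℝ, 0 < c ∧ 0 < C ∧ 0 < r0 ∧ Bds μ K α A c C r0) :
    essSup (fun ω => dimH (K ω ∩ S)) μ = dimH S - ENNReal.ofReal α := by
  obtain ⟨Kn, hKc, hKS⟩ := hS
  have hsub : ∀ n, Kn n ⊆ S := fun n => by
    rw [← hKS]
    exact Set.subset_iUnion Kn n
  apply le_antisymm
  · refine essSup_le_of_ae_le _ ?_
    have h1 : ∀ᵐ ω ∂μ, ∀ n, dimH (K ω ∩ Kn n) ≤ dimH (Kn n) - ENNReal.ofReal α := by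
      rw [ae_all_iff]
      intro n
      obtain ⟨c, C, r0, hc, hC, hr0, h⟩ := hb (Kn n) (hsub n) (hKc n)
      filter_upwards [up_gen hm hα hC hr0 h Set.Subset.rfl] with ω hω
      exact hω.1
    filter_upwards [h1] with ω hω
    have e : K ω ∩ S = ⋃ n, (K ω ∩ Kn n) := by
      rw [← hKS, Set.inter_iUnion]
    rw [e, dimH_iUnion]
    refine iSup_le fun n => (hω n).trans ?_
    exact tsub_le_tsub_right (dimH_mono (hsub n)) _
  · by_contra hcon
    rw [not_le] at hcon
    obtain ⟨t, ht0, ht1, ht2⟩ := ENNReal.lt_iff_exists_real_btwn.mp hcon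
    have htp : 0 < t := by
      by_contra h0
      have h5 : t = 0 := le_antisymm (not_lt.mp h0) ht0
      rw [h5, ENNReal.ofReal_zero] at ht1
      exact absurd ht1 not_lt_zero
    have ht3 : ENNReal.ofReal (t + α) < dimH S := by
      rw [ENNReal.ofReal_add ht0 hα.le]
      exact lt_tsub_iff_right.mp ht2
    rw [← hKS, dimH_iUnion] at ht3
    obtain ⟨n, hn⟩ := lt_iSup_iff.mp ht3
    obtain ⟨c, C, r0, hc, hC, hr0, h⟩ := hb (Kn n) (hsub n) (hKc n)
    have h5 := dim_pos hK hm hα (hKc n) hc hC hr0 h htp hn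
    have h6 := ae_lt_of_essSup_lt ht1
    rw [ae_iff] at h6
    have h7 : μ {ω | ENNReal.ofReal t ≤ dimH (K ω ∩ Kn n)} ≤ 0 := by
      rw [← h6]
      apply measure_mono
      intro p hp
      simp only [Set.mem_ofPred_eq, not_lt] at hp ⊢
      exact hp.trans (dimH_mono (Set.inter_subset_inter_right _ (hsub n)))
    exact absurd h5 (not_lt.mpr h7)

end Pool.Agent.TH966.GB
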