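import Pool.Agent.TH966.GB.WirLim
import Pool.Agent.H934R2.Expl.Chart

/-!
Connections from small half-boxes to the boundary of large half-boxes: probabilities for one box and
for two boxes.
-/

set_option autoImplicit false
set_option maxHeartbeats 1000000

namespace Pool.Agent.TH966.GB

open H974 H973 H934E Pool.Agent.H160R2.CV
open Pool.Agent.H160R2.CV.Quad

theorem BAr_inc (k r R : ℤ) : IncA (BAr k r R) := fun _ _ h hF => hF.mono h

theorem BAr_loc (k r R : ℤ) : LocE (RE (k - R) (k + R) 0 R) (BAr k r R) := by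
  intro F
  unfold BAr
  have e : (↑(F ∩ RE (k - R) (k + R) 0 R) : Set Edg) ∩ ↑(RE (k - R) (k + R) 0 R) =
      ↑F ∩ ↑(RE (k - R) (k + R) 0 R) := by
    rw [Finset.coe_inter, Set.inter_assoc, Set.inter_self]
  rw [e]

theorem BAr_loc' {k r R : ℤ} {T : Finset Edg} (h : RE (k - R) (k + R) 0 R ⊆ T) :
    LocE T (BAr k r R) := by
  intro F
  rw [BAr_loc k r R F, BAr_loc k r R (F ∩ T), Finset.inter_assoc, Finset.inter_eq_right.mpr h]

theorem BAr_shrink {k r j R : ℤ} (hr : 1 ≤ r) (hrj : r ≤ j) (hjR : j ≤ R) {F : Finset Edg}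
    (h : BAr k r R F) : BAr k r j F := by
  obtain ⟨u, v, h1, h2, h3⟩ := h
  obtain ⟨w, h4, _, h5⟩ := exitG (k := k) (R := j) (by omega)
    (G := ↑F ∩ ↑(RE (k - R) (k + R) 0 R)) (fun e he _ => RE_nonneg (Finset.mem_coe.mp he.2))
    (u := u) (by unfold inR at h1 ⊢; omega) h3 (by omega)
  exact ⟨u, w, h1, h4, h5.mono (by rintro e ⟨⟨he1, _⟩, he2⟩; exact ⟨he1, he2⟩)⟩

/-- A crossing of a half-annulus. -/
def OB (k r R : ℤ) (F : Finset Edg) : Prop :=
  ∃ u v : Vtx, inR (k - r) (k + r) 0 r u ∧ (v.1 ≤ k - R ∨ k + R ≤ v.1 ∨ R ≤ v.2) ∧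
    Reach (↑F ∩ ↑(RE (k - R) (k + R) 0 R \ RE (k - r) (k + r) 0 r)) u v

theorem OB_inc (k r R : ℤ) : IncA (OB k r R) := by
  rintro F G h ⟨u, v, h1, h2, h3⟩
  exact ⟨u, v, h1, h2, h3.mono (Set.inter_subset_inter_left _ (by exact_mod_cast h))⟩

theorem OB_loc (k r R : ℤ) : LocE (RE (k - R) (k + R) 0 R \ RE (k - r) (k + r) 0 r) (OB k r R) := by
  intro F
  unfold OB
  have e : (↑(F ∩ (RE (k - R) (k + R) 0 R \ RE (k - r) (k + r) 0 r)) : Set Edg) ∩
      ↑(RE (k - R) (k + R) 0 R \ RE (k - r) (k + r) 0 r) =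
      ↑F ∩ ↑(RE (k - R) (k + R) 0 R \ RE (k - r) (k + r) 0 r) := by
    rw [Finset.coe_inter, Set.inter_assoc, Set.inter_self]
  rw [e]

theorem BAr_of_OB {k r R : ℤ} {F : Finset Edg} (h : OB k r R F) : BAr k r R F := by
  obtain ⟨u, v, h1, h2, h3⟩ := h
  refine ⟨u, v, h1, h2, h3.mono ?_⟩
  apply Set.inter_subset_inter_right
  rw [Finset.coe_sdiff]
  exact Set.sdiff_subset

theorem OB_of_BAr {k m r R : ℤ} (hmr : m ≤ r) {F : Finset Edg} (h : BAr k m R F) :
    OB k r R F := by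
  obtain ⟨u, v, h1, h2, h3⟩ := h
  obtain ⟨w, hw, hw2⟩ := last_exit (B := HK k r) (u := u) (by
    rw [mem_HK]; unfold inR at h1; omega) h3
  rw [mem_HK] at hw
  refine ⟨w, v, by unfold inR; omega, h2, hw2.mono ?_⟩
  rintro e ⟨⟨he1, he2⟩, he3⟩
  rw [ES_HK] at he3
  refine ⟨he1, ?_⟩
  rw [Finset.coe_sdiff]
  exact ⟨he2, he3⟩

/-- Lower bound for the probability of one box. -/
theorem BAr_ge : ∃ c : ℝ, 0 < c ∧ ∀ k r R : ℤ, 1 ≤ r → r ≤ R → ∀ S : Finset Edg,
    RE (k - R) (k + R) 0 R ⊆ S → c * (th r / th R) ≤ Pr P S (BAr k r R) := by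
  obtain ⟨c, C, hc, hC, h⟩ := pa_bounds
  refine ⟨c / C, by positivity, ?_⟩
  intro k r R hr hrR S hS
  have hr0 := th_pos hr
  have hR0 := th_pos (hr.trans hrR)
  have b1 := (h r hr).2
  have b2 := (h R (hr.trans hrR)).1
  change th r * pa r ≤ C at b1
  change c ≤ th R * pa R at b2
  have e1 : Pr P S (Ar k R) = pa R := pr_Ar (hr.trans hrR) hS
  have hsub : RE (k - r) (k + r) 0 r ⊆ S := (RE_subset (by omega) (by omega) le_rfl (by omega)).trans hS
  have e2 : Pr P (RE (k - r) (k + r) 0 r) (Ar k r) = pa r := pr_Ar hr (Finset.Subset.refl _)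
  have key : Pr P S (Ar k R) ≤ Pr P (RE (k - r) (k + r) 0 r) (Ar k r) *
      Pr P (RE (k - R) (k + R) 0 R \ RE (k - r) (k + r) 0 r) (OB k r R) := by
    refine le_trans (Pr_mono okP ?_) (indep2 S (RE (k - r) (k + r) 0 r)
      (RE (k - R) (k + R) 0 R \ RE (k - r) (k + r) 0 r) Finset.disjoint_sdiff
      (A := Ar k r) (B := OB k r R) (fun _ _ h hF => hF.mono h) (OB_inc k r R)
      (fun F => Ar_local (Finset.Subset.refl _)) (OB_loc k r R))
    intro F _ hF
    refine ⟨hF.anti hr hrR, ?_⟩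
    obtain ⟨y, hy1, hy2⟩ := hF
    exact OB_of_BAr (m := 0) (by omega) ⟨(k, 0), y, by unfold inR; simp only; omega, hy1, hy2⟩
  have key2 : Pr P (RE (k - R) (k + R) 0 R \ RE (k - r) (k + r) 0 r) (OB k r R) ≤
      Pr P S (BAr k r R) := by
    refine (Pr_mono okP (fun F _ hF => BAr_of_OB hF)).trans ?_
    exact Pr_mono_set okP (Finset.sdiff_subset.trans hS) (BAr_incr S k r R)
  rw [e1, e2] at key
  have hB := Pr_nonneg okP S (BAr k r R)
  have h3 : c / th R ≤ pa R := by rw [div_le_iff₀ hR0]; linarith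
  have h4 : pa r ≤ C / th r := by rw [le_div_iff₀ hr0]; linarith
  have h5 : c / th R ≤ C / th r * Pr P S (BAr k r R) :=
    h3.trans (key.trans ((mul_le_mul_of_nonneg_left key2 (pa_nonneg _)).trans
      (mul_le_mul_of_nonneg_right h4 hB)))
  calc c / C * (th r / th R) = (c / th R) * (th r / C) := by field_simp
    _ ≤ (C / th r * Pr P S (BAr k r R)) * (th r / C) :=
        mul_le_mul_of_nonneg_right h5 (by positivity)
    _ = Pr P S (BAr k r R) := by field_simp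

theorem disj_half {k l n : ℤ} (h : 2 * n + 1 ≤ |k - l|) :
    Disjoint (RE (k - n) (k + n) 0 n) (RE (l - n) (l + n) 0 n) := by
  rw [Finset.disjoint_left]
  rintro ⟨x, y, _ | _⟩ h1 h2
  · rw [mem_RE_false] at h1 h2
    rcases abs_cases (k - l) with ⟨h3, _⟩ | ⟨h3, _⟩ <;> omega
  · rw [mem_RE_true] at h1 h2
    rcases abs_cases (k - l) with ⟨h3, _⟩ | ⟨h3, _⟩ <;> omega

theorem half_far {C : ℝ} (hC : 0 < C) (hup : ∀ k r R : ℤ, 1 ≤ r → r ≤ R → ∀ S : Finset Edg,
    RE (k - R) (k + R) 0 R ⊆ S → Pr P S (BAr k r R) ≤ C * (th r / th R)) {k l m j n : ℤ}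
    (hm : 1 ≤ m) (hmj : m ≤ j) (hjn : j ≤ n) (h : 2 * j + 1 ≤ |k - l|) (S : Finset Edg) :
    Pr P S (fun F => BAr k m n F ∧ BAr l m n F) ≤ (C * (th m / th j)) ^ 2 := by
  refine (Pr_mono okP (fun F _ hF => (⟨BAr_shrink hm hmj hjn hF.1, BAr_shrink hm hmj hjn hF.2⟩ :
    BAr k m j F ∧ BAr l m j F))).trans ?_
  refine (indep2 S _ _ (disj_half h) (BAr_inc k m j) (BAr_inc l m j) (BAr_loc k m j)
    (BAr_loc l m j)).trans ?_
  rw [pow_two]
  have h1 := th_pos hm
  have h2 := th_pos (hm.trans hmj)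
  exact mul_le_mul (hup k m j hm hmj _ (Finset.Subset.refl _))
    (hup l m j hm hmj _ (Finset.Subset.refl _)) (Pr_nonneg okP _ _) (by positivity)

theorem half_near {C : ℝ} (hC : 0 < C) (hup : ∀ k r R : ℤ, 1 ≤ r → r ≤ R → ∀ S : Finset Edg,
    RE (k - R) (k + R) 0 R ⊆ S → Pr P S (BAr k r R) ≤ C * (th r / th R)) {k l m j d n : ℤ}
    (hm : 1 ≤ m) (hmj : m ≤ j) (hd : |k - l| = d) (h : 2 * j + 1 ≤ d) (hdn : 2 * d ≤ n)
    (S : Finset Edg) :
    Pr P S (fun F => BAr k m n F ∧ BAr l m n F) ≤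
      (C * (th m / th j)) ^ 2 * (C * (th (2 * d) / th n)) := by
  have hA2 : ∀ F, (BAr k m n F ∧ BAr l m n F) →
      ((BAr k m j F ∧ BAr l m j F) ∧ OB k (2 * d) n F) := fun F hF =>
    ⟨⟨BAr_shrink hm hmj (by omega) hF.1, BAr_shrink hm hmj (by omega) hF.2⟩,
      OB_of_BAr (by omega) hF.1⟩
  have hsub : RE (k - j) (k + j) 0 j ∪ RE (l - j) (l + j) 0 j ⊆
      RE (k - 2 * d) (k + 2 * d) 0 (2 * d) := by
    apply Finset.union_subset
    · apply RE_subset <;> omega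
    · apply RE_subset <;> rcases abs_cases (k - l) with ⟨h3, _⟩ | ⟨h3, _⟩ <;> omega
  have hdis : Disjoint (RE (k - j) (k + j) 0 j ∪ RE (l - j) (l + j) 0 j)
      (RE (k - n) (k + n) 0 n \ RE (k - 2 * d) (k + 2 * d) 0 (2 * d)) :=
    Finset.disjoint_of_subset_left hsub Finset.disjoint_sdiff
  have hl : LocE (RE (k - j) (k + j) 0 j ∪ RE (l - j) (l + j) 0 j)
      (fun F => BAr k m j F ∧ BAr l m j F) := by
    intro F
    have e1 := BAr_loc' (k := k) (r := m) (R := j)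
      (T := RE (k - j) (k + j) 0 j ∪ RE (l - j) (l + j) 0 j) Finset.subset_union_left F
    have e2 := BAr_loc' (k := l) (r := m) (R := j)
      (T := RE (k - j) (k + j) 0 j ∪ RE (l - j) (l + j) 0 j) Finset.subset_union_right F
    show (BAr k m j F ∧ BAr l m j F) ↔ _
    rw [e1, e2]
  have h1 := indep2 S _ _ hdis (A := fun F => BAr k m j F ∧ BAr l m j F) (B := OB k (2 * d) n)
    (fun F G h hF => ⟨hF.1.mono h, hF.2.mono h⟩) (OB_inc _ _ _) hl (OB_loc _ _ _)
  refine (Pr_mono okP (fun F _ hF => hA2 F hF)).trans (h1.trans ?_)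
  have t1 := th_pos hm
  have t2 := th_pos (hm.trans hmj)
  have t3 : 0 < th (2 * d) := th_pos (by omega)
  have t4 : 0 < th n := th_pos (by omega)
  refine mul_le_mul (half_far hC hup hm hmj le_rfl (by omega) _) ?_ (Pr_nonneg okP _ _)
    (by positivity)
  refine (Pr_mono okP (fun F _ hF => BAr_of_OB hF)).trans ?_
  refine (Pr_mono_set okP Finset.sdiff_subset (BAr_incr _ k (2 * d) n)).trans ?_
  exact hup k (2 * d) n (by omega) (by omega) _ (Finset.Subset.refl _)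

/-- **Two half-boxes.** -/
theorem half_two : ∃ K : ℝ, 0 < K ∧ ∀ (m n k l : ℤ), 1 ≤ m → m ≤ n → ∀ S : Finset Edg,
    RE (k - n) (k + n) 0 n ⊆ S →
    Pr P S (fun F => BAr k m n F ∧ BAr l m n F) ≤
      K * ((m : ℝ) / n) ^ ((2 : ℝ) / 3) *
        (1 + ((n : ℝ) / max |(k : ℝ) - l| m) ^ ((1 : ℝ) / 3)) := by
  obtain ⟨C, hC, hup'⟩ := BAr_le
  have hup : ∀ k r R : ℤ, 1 ≤ r → r ≤ R → ∀ S : Finset Edg,
    RE (k - R) (k + R) 0 R ⊆ S → Pr P S (BAr k r R) ≤ C * (th r / th R) := hup'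
  refine ⟨32 * C + 1024 * C ^ 2 + 64 * C ^ 3, by positivity, ?_⟩
  intro m n k l hm hmn S hS
  have hm0 : (0 : ℝ) < m := by exact_mod_cast (by omega : 0 < m)
  have hn0 : (0 : ℝ) < n := by exact_mod_cast (by omega : 0 < n)
  obtain ⟨d, hd⟩ : ∃ d, d = |k - l| := ⟨_, rfl⟩
  have hdR : |(k : ℝ) - l| = (d : ℝ) := by rw [hd]; push_cast; ring
  rw [hdR]
  have hd0 : 0 ≤ d := by rw [hd]; exact abs_nonneg _
  have hmx : (0 : ℝ) < max (d : ℝ) m := lt_of_lt_of_le hm0 (le_max_right _ _)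
  obtain ⟨a, ha⟩ : ∃ a : ℝ, a = ((m : ℝ) / n) ^ ((1 : ℝ) / 3) := ⟨_, rfl⟩
  obtain ⟨X, hX⟩ : ∃ X : ℝ, X = ((n : ℝ) / max (d : ℝ) m) ^ ((1 : ℝ) / 3) := ⟨_, rfl⟩
  have ha0 : 0 < a := by rw [ha]; positivity
  have hX0 : 0 < X := by rw [hX]; positivity
  have ha2 : ((m : ℝ) / n) ^ ((2 : ℝ) / 3) = a ^ 2 := by
    rw [ha, ← Real.rpow_natCast, ← Real.rpow_mul (by positivity)]
    norm_num
  rw [ha2, ← hX]
  have hpow : ∀ b : ℝ, 1 ≤ b → b ^ ((1 : ℝ) / 3) ≤ b := fun b hb => by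
    calc b ^ ((1 : ℝ) / 3) ≤ b ^ (1 : ℝ) := Real.rpow_le_rpow_of_exponent_le hb (by norm_num)
      _ = b := Real.rpow_one b
  have thd : ∀ x y : ℤ, 0 < x → 0 < y → th x / th y = ((x : ℝ) / y) ^ ((1 : ℝ) / 3) := by
    intro x y hx hy
    unfold th
    rw [Real.div_rpow (by exact_mod_cast hx.le) (by exact_mod_cast hy.le)]
  by_cases h1 : d ≤ 16 * m
  · have p1 : Pr P S (fun F => BAr k m n F ∧ BAr l m n F) ≤ C * a := by
      refine (Pr_mono okP (fun _ _ hF => hF.1)).trans ((hup k m n hm hmn S hS).trans ?_)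
      rw [thd m n (by omega) (by omega), ha]
    have p2 : (1 : ℝ) ≤ 16 * (a * X) := by
      rw [ha, hX, ← Real.mul_rpow (by positivity) (by positivity)]
      have e1 : (m : ℝ) / n * ((n : ℝ) / max (d : ℝ) m) = m / max (d : ℝ) m := by field_simp
      rw [e1]
      have h2 : max (d : ℝ) m ≤ 16 * m := by
        apply max_le
        · exact_mod_cast h1
        · linarith
      have h3 : (1 : ℝ) ≤ 16 * (m / max (d : ℝ) m) := by
        rw [← mul_div_assoc, le_div_iff₀ hmx]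
        linarith
      have h4 : (1 : ℝ) ≤ (16 * (m / max (d : ℝ) m)) ^ ((1 : ℝ) / 3) :=
        Real.one_le_rpow h3 (by norm_num)
      rw [Real.mul_rpow (by norm_num) (by positivity)] at h4
      have h5 := hpow 16 (by norm_num)
      have h6 : 0 ≤ ((m : ℝ) / max (d : ℝ) m) ^ ((1 : ℝ) / 3) := by positivity
      nlinarith
    calc Pr P S (fun F => BAr k m n F ∧ BAr l m n F) ≤ C * a := p1
      _ ≤ C * a * (16 * (a * X)) := by nlinarith [mul_pos hC ha0]
      _ = 16 * C * a ^ 2 * X := by ring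
      _ ≤ (32 * C + 1024 * C ^ 2 + 64 * C ^ 3) * a ^ 2 * (1 + X) := by
          have h2 : 0 ≤ a ^ 2 := by positivity
          have h3 : 16 * C ≤ 32 * C + 1024 * C ^ 2 + 64 * C ^ 3 := by nlinarith [pow_pos hC 2, pow_pos hC 3]
          have h4 : 16 * C * a ^ 2 ≤ (32 * C + 1024 * C ^ 2 + 64 * C ^ 3) * a ^ 2 :=
            mul_le_mul_of_nonneg_right h3 h2
          exact mul_le_mul h4 (by linarith) hX0.le (by positivity)
  · push Not at h1
    have hdm : max (d : ℝ) m = d := by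
      apply max_eq_left
      exact_mod_cast (by omega : m ≤ d)
    have hdp : (0 : ℝ) < d := by exact_mod_cast (by omega : 0 < d)
    by_cases h2 : 6 * d ≤ n
    · obtain ⟨j, hj⟩ : ∃ j, j = (d - 1) / 3 := ⟨_, rfl⟩
      have hj1 : m ≤ j := by omega
      have hj2 : d ≤ 4 * j := by omega
      have p := half_near hC hup hm hj1 hd.symm (show 2 * j + 1 ≤ d by omega)
        (show 2 * d ≤ n by omega) S
      have hj0 : (0 : ℝ) < j := by exact_mod_cast (by omega : 0 < j)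
      rw [thd m j (by omega) (by omega), thd (2 * d) n (by omega) (by omega)] at p
      -- `a X = (m / d)^(1/3)`
      have eX : ((m : ℝ) / d) ^ ((1 : ℝ) / 3) = a * X := by
        rw [ha, hX, hdm, ← Real.mul_rpow (by positivity) (by positivity)]
        congr 1
        field_simp
      have b1 : ((m : ℝ) / j) ^ ((1 : ℝ) / 3) ≤ 4 * (a * X) := by
        rw [← eX]
        have e2 : (m : ℝ) / j ≤ 4 * (m / d) := by
          rw [div_le_iff₀ hj0]
          have h4 : (d : ℝ) ≤ 4 * j := by exact_mod_cast hj2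
          have : 4 * ((m : ℝ) / d) * j = m * (4 * j / d) := by ring
          rw [this]
          have h5 : 1 ≤ 4 * (j : ℝ) / d := by rw [le_div_iff₀ hdp]; linarith
          nlinarith
        calc ((m : ℝ) / j) ^ ((1 : ℝ) / 3) ≤ (4 * (m / d)) ^ ((1 : ℝ) / 3) :=
              Real.rpow_le_rpow (by positivity) e2 (by norm_num)
          _ = 4 ^ ((1 : ℝ) / 3) * ((m : ℝ) / d) ^ ((1 : ℝ) / 3) :=
              Real.mul_rpow (by norm_num) (by positivity)
          _ ≤ 4 * ((m : ℝ) / d) ^ ((1 : ℝ) / 3) :=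
              mul_le_mul_of_nonneg_right (hpow 4 (by norm_num)) (by positivity)
      have b2 : (((2 * d : ℤ) : ℝ) / n) ^ ((1 : ℝ) / 3) ≤ 2 * X⁻¹ := by
        have e1 : X⁻¹ = ((d : ℝ) / n) ^ ((1 : ℝ) / 3) := by
          rw [hX, hdm, ← Real.inv_rpow (by positivity), inv_div]
        rw [e1]
        push_cast
        rw [show (2 * (d : ℝ)) / n = 2 * (d / n) by ring, Real.mul_rpow (by norm_num) (by positivity)]
        exact mul_le_mul_of_nonneg_right (hpow 2 (by norm_num)) (by positivity)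
      have b3 : 0 ≤ ((m : ℝ) / j) ^ ((1 : ℝ) / 3) := by positivity
      have b4 : 0 ≤ (((2 * d : ℤ) : ℝ) / n) ^ ((1 : ℝ) / 3) := by
        have : (0 : ℝ) ≤ ((2 * d : ℤ) : ℝ) := by exact_mod_cast (by omega : 0 ≤ 2 * d)
        positivity
      calc Pr P S (fun F => BAr k m n F ∧ BAr l m n F)
          ≤ (C * ((m : ℝ) / j) ^ ((1 : ℝ) / 3)) ^ 2 *
            (C * (((2 * d : ℤ) : ℝ) / n) ^ ((1 : ℝ) / 3)) := p
        _ ≤ (C * (4 * (a * X))) ^ 2 * (C * (2 * X⁻¹)) := by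
            apply mul_le_mul _ _ (by positivity) (by positivity)
            · apply pow_le_pow_left₀ (by positivity)
              exact mul_le_mul_of_nonneg_left b1 hC.le
            · exact mul_le_mul_of_nonneg_left b2 hC.le
        _ = 32 * C ^ 3 * a ^ 2 * X := by field_simp; ring
        _ ≤ (32 * C + 1024 * C ^ 2 + 64 * C ^ 3) * a ^ 2 * (1 + X) := by
          have h2 : 0 ≤ a ^ 2 := by positivity
          have h3 : 32 * C ^ 3 ≤ 32 * C + 1024 * C ^ 2 + 64 * C ^ 3 := by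
            nlinarith [pow_pos hC 2, pow_pos hC 3]
          have h4 : 32 * C ^ 3 * a ^ 2 ≤ (32 * C + 1024 * C ^ 2 + 64 * C ^ 3) * a ^ 2 :=
            mul_le_mul_of_nonneg_right h3 h2
          exact mul_le_mul h4 (by linarith) hX0.le (by positivity)
    · push Not at h2
      obtain ⟨j, hj⟩ : ∃ j, j = min ((d - 1) / 3) n := ⟨_, rfl⟩
      have hj1 : m ≤ j := by omega
      have hj2 : n ≤ 24 * j := by omega
      have p := half_far hC hup hm hj1 (show j ≤ n by omega) (show 2 * j + 1 ≤ |k - l| by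
        rw [← hd]; omega) S
      have hj0 : (0 : ℝ) < j := by exact_mod_cast (by omega : 0 < j)
      rw [thd m j (by omega) (by omega)] at p
      have b1 : ((m : ℝ) / j) ^ ((1 : ℝ) / 3) ≤ 24 * a := by
        rw [ha]
        have e2 : (m : ℝ) / j ≤ 24 * (m / n) := by
          rw [div_le_iff₀ hj0]
          have h4 : (n : ℝ) ≤ 24 * j := by exact_mod_cast hj2
          have : 24 * ((m : ℝ) / n) * j = m * (24 * j / n) := by ring
          rw [this]
          have h5 : 1 ≤ 24 * (j : ℝ) / n := by rw [le_div_iff₀ hn0]; linarith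
          nlinarith
        calc ((m : ℝ) / j) ^ ((1 : ℝ) / 3) ≤ (24 * (m / n)) ^ ((1 : ℝ) / 3) :=
              Real.rpow_le_rpow (by positivity) e2 (by norm_num)
          _ = 24 ^ ((1 : ℝ) / 3) * ((m : ℝ) / n) ^ ((1 : ℝ) / 3) :=
              Real.mul_rpow (by norm_num) (by positivity)
          _ ≤ 24 * ((m : ℝ) / n) ^ ((1 : ℝ) / 3) :=
              mul_le_mul_of_nonneg_right (hpow 24 (by norm_num)) (by positivity)
      calc Pr P S (fun F => BAr k m n F ∧ BAr l m n F)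
          ≤ (C * ((m : ℝ) / j) ^ ((1 : ℝ) / 3)) ^ 2 := p
        _ ≤ (C * (24 * a)) ^ 2 := by
            apply pow_le_pow_left₀ (by positivity)
            exact mul_le_mul_of_nonneg_left b1 hC.le
        _ = 576 * C ^ 2 * a ^ 2 * 1 := by ring
        _ ≤ (32 * C + 1024 * C ^ 2 + 64 * C ^ 3) * a ^ 2 * (1 + X) := by
          have h2 : 0 ≤ a ^ 2 := by positivity
          have h3 : 576 * C ^ 2 ≤ 32 * C + 1024 * C ^ 2 + 64 * C ^ 3 := by
            nlinarith [pow_pos hC 2, pow_pos hC 3]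
          have h4 : 576 * C ^ 2 * a ^ 2 ≤ (32 * C + 1024 * C ^ 2 + 64 * C ^ 3) * a ^ 2 :=
            mul_le_mul_of_nonneg_right h3 h2
          exact mul_le_mul h4 (by linarith) (by norm_num) (by positivity)

end Pool.Agent.TH966.GB
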