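import Pool.Agent.TH966.GB.Half
import Pool.Agent.TH966.HD.TwoLim
import Pool.Agent.H934R2.Expl.Pieces

/-!
The exploration path of a rectangle and the free part of its lower side: hitting probabilities of
small discs around boundary points.
-/

set_option autoImplicit false
set_option maxHeartbeats 1000000

namespace Pool.Agent.TH966.GB

open H974 H973 H934E Pool.Agent.H160R2.CV MeasureTheory TopologicalSpace Filter Topology Metric Set
open Pool.Agent.H160R2.CV.Quad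
open Pool.Agent.TH966.CF (fl_bounds)
open scoped ENNReal NNReal

/-- If the path comes close to the boundary point `z`, a small half-box is connected to a large
distance. -/
theorem touch_up {R : Rect} {ρ : ℝ} (hρ : 0 < ρ) (hρH : 2 * ρ ≤ R.H) {z : ℂ} {s δ : ℝ}
    (hz0 : z.im = 0) (hz1 : 2 * ρ ≤ z.re) (hz2 : z.re ≤ R.B - 2 * ρ) (hs : 0 < s)
    (hsρ : 64 * s ≤ ρ) (hδ : 0 < δ) (hδs : 64 * δ ≤ s) (hδL : 4 * δ < R.L0) {F : Finset Edg}
    (hF : F ⊆ R.edges δ) (h : (R.path δ F ∩ ball z s).Nonempty) :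
    BAr ⌊z.re / δ⌋ ⌈2 * s / δ⌉ ⌊ρ / δ⌋ F := by
  obtain ⟨g1, g2, g3, g4⟩ := R.small_geom hδ hδL
  obtain ⟨⟨x1, x2⟩, ⟨x3, x4⟩, ⟨x5, x6⟩, -⟩ := R.small_geom2 hδ
  obtain ⟨a1, a2⟩ := fl_bounds hδ z.re
  obtain ⟨k, hk⟩ : ∃ k, k = ⌊z.re / δ⌋ := ⟨_, rfl⟩
  obtain ⟨m, hm⟩ : ∃ m, m = ⌈2 * s / δ⌉ := ⟨_, rfl⟩
  obtain ⟨n, hn⟩ : ∃ n, n = ⌊ρ / δ⌋ := ⟨_, rfl⟩
  rw [← hk] at a1 a2 ⊢
  rw [← hm, ← hn]
  have n1 : (n : ℝ) * δ ≤ ρ := by
    have := Int.floor_le (ρ / δ)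
    rw [le_div_iff₀ hδ] at this
    rw [hn]; exact this
  have n2 : ρ < ((n : ℝ) + 1) * δ := by
    have := Int.lt_floor_add_one (ρ / δ)
    rw [div_lt_iff₀ hδ] at this
    rw [hn]; exact this
  have m2 : 2 * s ≤ (m : ℝ) * δ := by
    have := Int.le_ceil (2 * s / δ)
    rw [div_le_iff₀ hδ] at this
    rw [hm]; exact this
  have m1 : (m : ℝ) * δ < 2 * s + δ := by
    have := Int.ceil_lt_add_one (2 * s / δ)
    rw [hm]
    calc (⌈2 * s / δ⌉ : ℝ) * δ < (2 * s / δ + 1) * δ := mul_lt_mul_of_pos_right this hδ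
      _ = 2 * s + δ := by field_simp
  have cast_le : ∀ a b : ℤ, (a : ℝ) * δ ≤ (b : ℝ) * δ → a ≤ b := by
    intro a b hab
    exact_mod_cast le_of_mul_le_mul_right hab hδ
  rw [lt_div_iff₀ hδ] at x4
  rw [div_sub_one hδ.ne', div_le_iff₀ hδ] at x3
  have x5' : R.H - 2 * δ ≤ (R.y1 δ : ℝ) * δ := by
    have : R.H / δ - 2 = (R.H - 2 * δ) / δ := by field_simp
    rw [this, div_le_iff₀ hδ] at x5
    exact x5
  have hmn : m ≤ n := cast_le _ _ (by nlinarith)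
  have hn1 : 1 ≤ n := cast_le _ _ (by push_cast; nlinarith)
  have k1 : 1 ≤ k - n := cast_le _ _ (by push_cast; nlinarith)
  have k2 : k + n ≤ R.x1 δ := cast_le _ _ (by push_cast; nlinarith)
  have k3 : n + 1 ≤ R.y1 δ := cast_le _ _ (by push_cast; nlinarith)
  obtain ⟨w, hw1, hw2⟩ := h
  obtain ⟨v, hv, hv1, hv2⟩ := R.path_near hδ hw1
  have hvv := R.mem_verts'.mp (R.clu_verts g1 g2 g3 g4 hF hv)
  rw [mem_ball, Complex.dist_eq] at hw2
  have p1 := (Complex.abs_re_le_norm (w - z)).trans_lt hw2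
  have p2 := (Complex.abs_im_le_norm (w - z)).trans_lt hw2
  rw [Complex.sub_re, abs_lt] at p1
  rw [Complex.sub_im, hz0, abs_lt] at p2
  rw [abs_le] at hv1 hv2
  have q1 : v.1 ≤ k + m := cast_le _ _ (by push_cast; nlinarith)
  have q2 : k - m ≤ v.1 := cast_le _ _ (by push_cast; nlinarith)
  have q3 : v.2 ≤ m := cast_le _ _ (by push_cast; nlinarith)
  exact chart_BAr (R.chart1 (k := k) (S := n) hn1 k1 k2 (by omega) g1 g3) hn1 hmn hF
    ⟨(0, 0), rfl, v, by unfold inR; omega, hv⟩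

/-- Two-point upper bound at small mesh. -/
theorem touch_two : ∃ C : ℝ, 0 < C ∧ ∀ (R : Rect) (ρ : ℝ), 0 < ρ → 2 * ρ ≤ R.H →
    ∀ (z w : ℂ) (s δ : ℝ), z.im = 0 → 2 * ρ ≤ z.re → z.re ≤ R.B - 2 * ρ →
    w.im = 0 → 2 * ρ ≤ w.re → w.re ≤ R.B - 2 * ρ → 0 < s → 64 * s ≤ ρ → 0 < δ → 64 * δ ≤ s →
    4 * δ < R.L0 →
    Pr P (R.edges δ) (fun F => (R.path δ F ∩ ball z s).Nonempty ∧
      (R.path δ F ∩ ball w s).Nonempty) ≤
      C * (s / ρ) ^ ((2 : ℝ) / 3) * (1 + (ρ / max (dist z w) s) ^ ((1 : ℝ) / 3)) := by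
  obtain ⟨K, hK, hb⟩ := half_two
  refine ⟨K * 4 * 4, by positivity, ?_⟩
  intro R ρ hρ hρH z w s δ hz0 hz1 hz2 hw0 hw1 hw2 hs hsρ hδ hδs hδL
  obtain ⟨g1, g2, g3, g4⟩ := R.small_geom hδ hδL
  obtain ⟨⟨x1, x2⟩, ⟨x3, x4⟩, ⟨x5, x6⟩, -⟩ := R.small_geom2 hδ
  obtain ⟨a1, a2⟩ := fl_bounds hδ z.re
  obtain ⟨b1, b2⟩ := fl_bounds hδ w.re
  have h1 : Pr P (R.edges δ) (fun F => (R.path δ F ∩ ball z s).Nonempty ∧
      (R.path δ F ∩ ball w s).Nonempty) ≤ Pr P (R.edges δ) (fun F =>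
        BAr ⌊z.re / δ⌋ ⌈2 * s / δ⌉ ⌊ρ / δ⌋ F ∧ BAr ⌊w.re / δ⌋ ⌈2 * s / δ⌉ ⌊ρ / δ⌋ F) :=
    Pr_mono okP (fun F hF hF2 => ⟨touch_up hρ hρH hz0 hz1 hz2 hs hsρ hδ hδs hδL hF hF2.1,
      touch_up hρ hρH hw0 hw1 hw2 hs hsρ hδ hδs hδL hF hF2.2⟩)
  refine h1.trans ?_
  obtain ⟨k, hk⟩ : ∃ k, k = ⌊z.re / δ⌋ := ⟨_, rfl⟩
  obtain ⟨l, hl⟩ : ∃ l, l = ⌊w.re / δ⌋ := ⟨_, rfl⟩
  obtain ⟨m, hm⟩ : ∃ m, m = ⌈2 * s / δ⌉ := ⟨_, rfl⟩
  obtain ⟨n, hn⟩ : ∃ n, n = ⌊ρ / δ⌋ := ⟨_, rfl⟩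
  rw [← hk] at a1 a2 ⊢
  rw [← hl] at b1 b2 ⊢
  rw [← hm, ← hn]
  have n1 : (n : ℝ) * δ ≤ ρ := by
    have := Int.floor_le (ρ / δ)
    rw [le_div_iff₀ hδ] at this
    rw [hn]; exact this
  have n2 : ρ < ((n : ℝ) + 1) * δ := by
    have := Int.lt_floor_add_one (ρ / δ)
    rw [div_lt_iff₀ hδ] at this
    rw [hn]; exact this
  have m2 : 2 * s ≤ (m : ℝ) * δ := by
    have := Int.le_ceil (2 * s / δ)
    rw [div_le_iff₀ hδ] at this
    rw [hm]; exact this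
  have m1 : (m : ℝ) * δ < 2 * s + δ := by
    have := Int.ceil_lt_add_one (2 * s / δ)
    rw [hm]
    calc (⌈2 * s / δ⌉ : ℝ) * δ < (2 * s / δ + 1) * δ := mul_lt_mul_of_pos_right this hδ
      _ = 2 * s + δ := by field_simp
  have cast_le : ∀ a b : ℤ, (a : ℝ) * δ ≤ (b : ℝ) * δ → a ≤ b := by
    intro a b hab
    exact_mod_cast le_of_mul_le_mul_right hab hδ
  rw [div_sub_one hδ.ne', div_le_iff₀ hδ] at x3
  have x5' : R.H - 2 * δ ≤ (R.y1 δ : ℝ) * δ := by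
    have : R.H / δ - 2 = (R.H - 2 * δ) / δ := by field_simp
    rw [this, div_le_iff₀ hδ] at x5
    exact x5
  have hmn : m ≤ n := cast_le _ _ (by nlinarith)
  have hm1 : 1 ≤ m := cast_le _ _ (by push_cast; nlinarith)
  have k1 : 1 ≤ k - n := cast_le _ _ (by push_cast; nlinarith)
  have k2 : k + n ≤ R.x1 δ := cast_le _ _ (by push_cast; nlinarith)
  have k3 : n + 1 ≤ R.y1 δ := cast_le _ _ (by push_cast; nlinarith)
  have hbox := (R.chart1 (k := k) (S := n) (by omega) k1 k2 (by omega) g1 g3).box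
  have h2 := hb m n k l hm1 hmn (R.edges δ) hbox
  refine h2.trans ?_
  have hm0 : (0 : ℝ) < m := by exact_mod_cast (by omega : 0 < m)
  have hn0 : (0 : ℝ) < n := by exact_mod_cast (by omega : 0 < n)
  have hmx : 0 < max (dist z w) s := lt_of_lt_of_le hs (le_max_right _ _)
  have hmx' : (0 : ℝ) < max |(k : ℝ) - l| m := lt_of_lt_of_le hm0 (le_max_right _ _)
  have e1 : ((m : ℝ) / n) ^ ((2 : ℝ) / 3) ≤ 4 * (s / ρ) ^ ((2 : ℝ) / 3) := by
    have h4 : (m : ℝ) / n ≤ 4 * (s / ρ) := by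
      rw [div_le_iff₀ hn0]
      have h5 : (m : ℝ) * δ ≤ 4 * (s / ρ) * n * δ := by
        have h6 : 4 * (s / ρ) * n * δ = 4 * s * (n * δ / ρ) := by field_simp
        rw [h6]
        have h7 : (3 / 4 : ℝ) ≤ n * δ / ρ := by
          rw [le_div_iff₀ hρ]; nlinarith
        nlinarith
      exact le_of_mul_le_mul_right h5 hδ
    calc ((m : ℝ) / n) ^ ((2 : ℝ) / 3) ≤ (4 * (s / ρ)) ^ ((2 : ℝ) / 3) :=
          Real.rpow_le_rpow (by positivity) h4 (by norm_num)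
      _ = 4 ^ ((2 : ℝ) / 3) * (s / ρ) ^ ((2 : ℝ) / 3) :=
          Real.mul_rpow (by norm_num) (by positivity)
      _ ≤ 4 * (s / ρ) ^ ((2 : ℝ) / 3) := by
          apply mul_le_mul_of_nonneg_right _ (by positivity)
          calc (4 : ℝ) ^ ((2 : ℝ) / 3) ≤ 4 ^ (1 : ℝ) :=
                Real.rpow_le_rpow_of_exponent_le (by norm_num) (by norm_num)
            _ = 4 := Real.rpow_one _
  have e2 : ((n : ℝ) / max |(k : ℝ) - l| m) ^ ((1 : ℝ) / 3) ≤
      4 * (ρ / max (dist z w) s) ^ ((1 : ℝ) / 3) := by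
    have hdist : dist z w = |z.re - w.re| := by
      rw [Complex.dist_eq, show z - w = ((z.re - w.re : ℝ) : ℂ) by
        apply Complex.ext
        · simp
        · simp [hz0, hw0], Complex.norm_real, Real.norm_eq_abs]
    have h4 : max (dist z w) s ≤ 4 * (δ * max |(k : ℝ) - l| m) := by
      have u1 := mul_le_mul_of_nonneg_left (le_max_left |(k : ℝ) - l| (m : ℝ)) hδ.le
      have u2 := mul_le_mul_of_nonneg_left (le_max_right |(k : ℝ) - l| (m : ℝ)) hδ.le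
      apply max_le
      · rw [hdist]
        have h5 : |z.re - w.re| ≤ δ * |(k : ℝ) - l| + δ := by
          rw [← abs_of_pos hδ, ← abs_mul, abs_of_pos hδ]
          have h3 := le_abs_self (δ * ((k : ℝ) - l))
          have h4 := neg_abs_le (δ * ((k : ℝ) - l))
          rw [abs_le]
          constructor <;> nlinarith
        nlinarith
      · nlinarith
    have h5 : (n : ℝ) / max |(k : ℝ) - l| m ≤ 4 * (ρ / max (dist z w) s) := by
      rw [div_le_iff₀ hmx']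
      have e1 : 4 * (ρ / max (dist z w) s) * max |(k : ℝ) - l| m =
          ρ * (4 * (δ * max |(k : ℝ) - l| m) / max (dist z w) s) / δ := by field_simp
      rw [e1, le_div_iff₀ hδ]
      have h6 : 1 ≤ 4 * (δ * max |(k : ℝ) - l| m) / max (dist z w) s := by
        rw [le_div_iff₀ hmx, one_mul]; exact h4
      nlinarith
    calc ((n : ℝ) / max |(k : ℝ) - l| m) ^ ((1 : ℝ) / 3)
        ≤ (4 * (ρ / max (dist z w) s)) ^ ((1 : ℝ) / 3) :=
          Real.rpow_le_rpow (by positivity) h5 (by norm_num)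
      _ = 4 ^ ((1 : ℝ) / 3) * (ρ / max (dist z w) s) ^ ((1 : ℝ) / 3) :=
          Real.mul_rpow (by norm_num) (by positivity)
      _ ≤ 4 * (ρ / max (dist z w) s) ^ ((1 : ℝ) / 3) := by
          apply mul_le_mul_of_nonneg_right _ (by positivity)
          calc (4 : ℝ) ^ ((1 : ℝ) / 3) ≤ 4 ^ (1 : ℝ) :=
                Real.rpow_le_rpow_of_exponent_le (by norm_num) (by norm_num)
            _ = 4 := Real.rpow_one _
  have e3 : 0 ≤ (ρ / max (dist z w) s) ^ ((1 : ℝ) / 3) := by positivity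
  have e4 : 0 ≤ (s / ρ) ^ ((2 : ℝ) / 3) := by positivity
  calc K * ((m : ℝ) / n) ^ ((2 : ℝ) / 3) * (1 + ((n : ℝ) / max |(k : ℝ) - l| m) ^ ((1 : ℝ) / 3))
      ≤ K * (4 * (s / ρ) ^ ((2 : ℝ) / 3)) * (4 * (1 + (ρ / max (dist z w) s) ^ ((1 : ℝ) / 3))) := by
        apply mul_le_mul _ (by linarith) (by positivity) (by positivity)
        exact mul_le_mul_of_nonneg_left e1 hK.le
    _ = _ := by ring

/-- One-point lower bound at small mesh. -/
theorem touch_one (R : Rect) {ρ : ℝ} (hρ : 0 < ρ) (hρH : 2 * ρ ≤ R.H) : ∃ c : ℝ, 0 < c ∧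
    ∀ (z : ℂ) (r δ : ℝ), z.im = 0 → 2 * ρ ≤ z.re → z.re ≤ R.B - 2 * ρ → 0 < r → 64 * r ≤ ρ →
      0 < δ → 64 * δ ≤ r → 4 * δ < R.L0 →
      c * r ^ ((1 : ℝ) / 3) ≤ Pr P (R.edges δ) (fun F => (R.path δ F ∩ closedBall z r).Nonempty) := by
  obtain ⟨c1, hc1, hlo⟩ := BAr_ge
  obtain ⟨κ, hκ⟩ : ∃ κ : ℕ, (R.A + R.B) / ρ * 8 + 8 ≤ κ := exists_nat_ge _
  obtain ⟨c2, hc2, hrsw⟩ := Pool.Agent.H389R2.LV.rsw_long κ
  have hR0 := R.hA
  have hR1 := R.hB
  have hkp := kp_pos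
  refine ⟨c1 * (1 / (16 * ρ)) ^ ((1 : ℝ) / 3) * kp * kp * c2, by positivity, ?_⟩
  intro z r δ hz0 hz1 hz2 hr hrρ hδ hδr hδL
  obtain ⟨g1, g2, g3, g4⟩ := R.small_geom hδ hδL
  obtain ⟨⟨x1, x2⟩, ⟨x3, x4⟩, ⟨x5, x6⟩, -⟩ := R.small_geom2 hδ
  obtain ⟨a1, a2⟩ := fl_bounds hδ z.re
  obtain ⟨k, hk⟩ : ∃ k, k = ⌊z.re / δ⌋ := ⟨_, rfl⟩
  obtain ⟨m, hm⟩ : ∃ m, m = ⌊r / (8 * δ)⌋ := ⟨_, rfl⟩
  obtain ⟨n, hn⟩ : ∃ n, n = ⌊ρ / (4 * δ)⌋ := ⟨_, rfl⟩
  rw [← hk] at a1 a2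
  have n1 : (n : ℝ) * (4 * δ) ≤ ρ := by
    have := Int.floor_le (ρ / (4 * δ))
    rw [le_div_iff₀ (by positivity)] at this
    rw [hn]; exact this
  have n2 : ρ < ((n : ℝ) + 1) * (4 * δ) := by
    have := Int.lt_floor_add_one (ρ / (4 * δ))
    rw [div_lt_iff₀ (by positivity)] at this
    rw [hn]; exact this
  have m1 : (m : ℝ) * (8 * δ) ≤ r := by
    have := Int.floor_le (r / (8 * δ))
    rw [le_div_iff₀ (by positivity)] at this
    rw [hm]; exact this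
  have m2 : r < ((m : ℝ) + 1) * (8 * δ) := by
    have := Int.lt_floor_add_one (r / (8 * δ))
    rw [div_lt_iff₀ (by positivity)] at this
    rw [hm]; exact this
  have cast_le : ∀ a b : ℤ, (a : ℝ) * δ ≤ (b : ℝ) * δ → a ≤ b := by
    intro a b hab
    exact_mod_cast le_of_mul_le_mul_right hab hδ
  rw [div_sub_one hδ.ne', div_le_iff₀ hδ] at x3
  have x5' : R.H - 2 * δ ≤ (R.y1 δ : ℝ) * δ := by
    have : R.H / δ - 2 = (R.H - 2 * δ) / δ := by field_simp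
    rw [this, div_le_iff₀ hδ] at x5
    exact x5
  have hm1 : 1 ≤ m := cast_le _ _ (by push_cast; nlinarith)
  have hmn : 3 * m ≤ n := cast_le _ _ (by push_cast; nlinarith)
  have k1 : 1 ≤ k - 3 * n := cast_le _ _ (by push_cast; nlinarith)
  have k2 : k + 3 * n ≤ R.x1 δ := cast_le _ _ (by push_cast; nlinarith)
  have k3 : 3 * n + 1 ≤ R.y1 δ := cast_le _ _ (by push_cast; nlinarith)
  have hm0 : (0 : ℝ) < m := by exact_mod_cast (by omega : 0 < m)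
  have hn0 : (0 : ℝ) < n := by exact_mod_cast (by omega : 0 < n)
  have hbox : RE (k - 3 * n) (k + 3 * n) 0 (3 * n) ⊆ R.edges δ :=
    (R.chart1 (k := k) (S := 3 * n) (by omega) k1 k2 (by omega) g1 g3).box
  have hboxm : RE (k - 3 * m) (k + 3 * m) 0 (3 * m) ⊆ R.edges δ :=
    (RE_subset (by omega) (by omega) le_rfl (by omega)).trans hbox
  have hLsub : LRE (R.x0 δ) k 0 n ⊆ R.edges δ := by
    rw [R.edges_eq]
    exact LRE_subset_RE.trans (RE_subset le_rfl (by omega) le_rfl (by omega))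
  -- the probabilities
  have p1 := hlo k m (3 * n) hm1 (by omega) (R.edges δ) hbox
  have p2 : kp ≤ Pr P (R.edges δ) (HC k n (3 * n)) := pr_HC (by omega) hbox
  have p4 : kp ≤ Pr P (R.edges δ) (HC k m (3 * m)) := pr_HC (by omega) hboxm
  have p3 : c2 ≤ Pr P (R.edges δ) (LRc (R.x0 δ) k 0 n) := by
    have h1 : Pr P (R.edges δ) (LRc (R.x0 δ) k 0 n) = hh (1 / 2) (k - R.x0 δ) (n - 0) :=
      pr_LRc (1 / 2) hLsub
    rw [h1, sub_zero]
    apply hrsw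
    · omega
    · omega
    · have h2 : ((k - R.x0 δ : ℤ) : ℝ) ≤ ((κ * n : ℤ) : ℝ) := by
        push_cast
        have h4 : -(R.x0 δ : ℝ) * δ ≤ R.A := by
          have : -(R.x0 δ : ℝ) < R.A / δ := by linarith
          rw [lt_div_iff₀ hδ] at this
          exact this.le
        have h5 : ((k : ℝ) - R.x0 δ) * δ ≤ R.A + R.B := by nlinarith
        have h6 : R.A + R.B ≤ (κ : ℝ) * n * δ := by
          have h7 : (R.A + R.B) / ρ * 8 ≤ κ := by linarith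
          have h8 : ρ ≤ 8 * (n * δ) := by nlinarith
          have h9 : R.A + R.B = (R.A + R.B) / ρ * ρ := by field_simp
          have h10 : 0 ≤ (R.A + R.B) / ρ := by positivity
          have h11 : (R.A + R.B) / ρ * ρ ≤ (R.A + R.B) / ρ * (8 * (n * δ)) :=
            mul_le_mul_of_nonneg_left h8 h10
          have h12 : (R.A + R.B) / ρ * 8 * (n * δ) ≤ κ * (n * δ) :=
            mul_le_mul_of_nonneg_right h7 (by positivity)
          nlinarith
        exact le_of_mul_le_mul_right (h5.trans h6) hδ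
      exact_mod_cast h2
  have i1 := BAr_incr (R.edges δ) k m (3 * n)
  have i2 := HC_incr (R.edges δ) k n (3 * n)
  have i3 := LRc_incr (R.edges δ) (R.x0 δ) k 0 n
  have i4 := HC_incr (R.edges δ) k m (3 * m)
  have q1 := Pr_harris okP i1 i2
  have j1 : IncrE (R.edges δ) (fun F => BAr k m (3 * n) F ∧ HC k n (3 * n) F) :=
    fun F G h hG hF => ⟨i1 F G h hG hF.1, i2 F G h hG hF.2⟩
  have q2 := Pr_harris okP j1 i4
  have j2 : IncrE (R.edges δ) (fun F => (BAr k m (3 * n) F ∧ HC k n (3 * n) F) ∧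
      HC k m (3 * m) F) :=
    fun F G h hG hF => ⟨j1 F G h hG hF.1, i4 F G h hG hF.2⟩
  have q3 := Pr_harris okP j2 i3
  have hdet : Pr P (R.edges δ) (fun F => ((BAr k m (3 * n) F ∧ HC k n (3 * n) F) ∧
      HC k m (3 * m) F) ∧ LRc (R.x0 δ) k 0 n F) ≤
      Pr P (R.edges δ) (fun F => (R.path δ F ∩ closedBall z r).Nonempty) := by
    refine Pr_mono okP ?_
    rintro F hF ⟨⟨⟨hB, hH⟩, hH2⟩, hL⟩
    obtain ⟨u, v, u1, u2, u3⟩ := hB
    obtain ⟨y, y', y1, y2, y3⟩ := hL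
    obtain ⟨l2, _, _, hz2'⟩ := hc_meet (by omega) (by omega) hH
    obtain ⟨l, hl1, hl2, hz3⟩ := hc_meet (by omega) (by omega) hH2
    have r1 := hz2' u v (by unfold inR at u1 ⊢; omega) u2 u3
    have hflat : ∀ e ∈ ((↑F : Set Edg) ∩ ↑(RE (k - 3 * n) (k + 3 * n) 0 (3 * n))),
        e ∈ RE (k - 3 * m) (k + 3 * m) (-(3 * m)) (3 * m) → 0 ≤ e.2.1 :=
      fun e he _ => RE_nonneg (Finset.mem_coe.mp he.2)
    obtain ⟨w, w1, _, w2⟩ := exitG (k := k) (R := 3 * m) (by omega) hflat (u := u) (v := v)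
      (by unfold inR at u1 ⊢; omega) u3 (by omega)
    have r2 := hz3 u w u1 w1 (w2.mono (by rintro e ⟨⟨he1, _⟩, he2⟩; exact ⟨he1, he2⟩))
    have hflat2 : ∀ e ∈ ((↑F : Set Edg) ∩ ↑(LRE (R.x0 δ) k 0 n)),
        e ∈ RE (k - 3 * n) (k + 3 * n) (-(3 * n)) (3 * n) → 0 ≤ e.2.1 :=
      fun e he _ => RE_nonneg (LRE_subset_RE (Finset.mem_coe.mp he.2))
    obtain ⟨w', w1', _, w2'⟩ := exitG (k := k) (R := 3 * n) (by omega) hflat2 (u := (k, y'))
      (v := (R.x0 δ, y)) (by unfold inR; simp only; omega) y3.symm (by left; simp only; omega)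
    have r3 := hz2' (k, y') w' (by unfold inR; simp only; omega) w1'
      (w2'.mono (by rintro e ⟨⟨he1, _⟩, he2⟩; exact ⟨he1, he2⟩))
    have r4 : Reach (R.wired δ) (0, 0) (R.x0 δ, y) :=
      Pool.Agent.H389R2.CD.wired_left R g1.le (by omega) (by omega)
    have up : ∀ {G : Set Edg} {a b : Vtx}, Reach (↑F ∩ G) a b → Reach (↑F ∪ R.wired δ) a b :=
      fun h => h.mono (Set.inter_subset_left.trans Set.subset_union_left)
    have r5 : Reach (↑F ∪ R.wired δ) (0, 0) (l, 0) :=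
      (r4.mono Set.subset_union_right).trans ((up y3).trans ((up r3).trans
        ((up r1).symm.trans (up r2))))
    have hmem := R.mem_path (δ := δ) (F := F) (k := l) (by omega) (by omega) r5
    refine ⟨_, hmem, ?_⟩
    rw [mem_closedBall, Complex.dist_eq]
    refine (Complex.norm_le_abs_re_add_abs_im _).trans ?_
    rw [Complex.sub_re, Complex.sub_im, hz0]
    simp only [sub_zero]
    have l1R : ((k : ℝ) - 3 * m) ≤ l := by exact_mod_cast hl1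
    have l2R : (l : ℝ) ≤ k - m := by exact_mod_cast hl2
    have f1 := mul_le_mul_of_nonneg_left l1R hδ.le
    have f2 := mul_le_mul_of_nonneg_left l2R hδ.le
    have t1 : |δ * (l : ℝ) - z.re| ≤ 3 * r / 8 + δ := by
      rw [abs_le]
      constructor <;> nlinarith
    have t2 : |δ / 2| ≤ δ := by
      rw [abs_of_pos (by positivity)]; linarith
    linarith
  refine le_trans ?_ hdet
  refine le_trans ?_ q3
  have h7 : c1 * (1 / (16 * ρ)) ^ ((1 : ℝ) / 3) * r ^ ((1 : ℝ) / 3) ≤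
      c1 * (th m / th (3 * n)) := by
    have e0 : th m / th (3 * n) = ((m : ℝ) / (3 * n : ℤ)) ^ ((1 : ℝ) / 3) := by
      unfold th
      rw [Real.div_rpow hm0.le (by push_cast; positivity)]
    rw [e0, mul_assoc, ← Real.mul_rpow (by positivity) hr.le]
    apply mul_le_mul_of_nonneg_left _ hc1.le
    apply Real.rpow_le_rpow (by positivity) _ (by norm_num)
    push_cast
    rw [le_div_iff₀ (by positivity)]
    have h8 : 1 / (16 * ρ) * r * (3 * n) * δ ≤ m * δ := by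
      have e3 : 1 / (16 * ρ) * r * (3 * n) * δ = r * (3 / 16) * (n * δ / ρ) := by
        field_simp
      rw [e3]
      have h9 : n * δ / ρ ≤ 1 / 4 := by
        rw [div_le_iff₀ hρ]; linarith
      have h10 : 0 ≤ n * δ / ρ := by positivity
      nlinarith
    exact le_of_mul_le_mul_right h8 hδ
  have hP := fun A : Finset Edg → Prop => Pr_nonneg okP (R.edges δ) A
  calc c1 * (1 / (16 * ρ)) ^ ((1 : ℝ) / 3) * kp * kp * c2 * r ^ ((1 : ℝ) / 3)
      = (((c1 * (1 / (16 * ρ)) ^ ((1 : ℝ) / 3) * r ^ ((1 : ℝ) / 3)) * kp) * kp) * c2 := by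
        ring
    _ ≤ (Pr P (R.edges δ) (fun F => (BAr k m (3 * n) F ∧ HC k n (3 * n) F) ∧
          HC k m (3 * m) F)) * Pr P (R.edges δ) (LRc (R.x0 δ) k 0 n) := by
        apply mul_le_mul _ p3 hc2.le (hP _)
        refine le_trans ?_ q2
        apply mul_le_mul _ p4 hkp.le (hP _)
        refine le_trans ?_ q1
        exact mul_le_mul (h7.trans p1) p2 hkp.le (hP _)

end Pool.Agent.TH966.GB
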