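import Pool.Agent.TH966.GB.Touch

/-!
The exploration path of a rectangle and fixed subsets of the free part of its lower side: bounds for
the weak limits.
-/

set_option autoImplicit false
set_option maxHeartbeats 1000000

namespace Pool.Agent.TH966.GB

open H974 H973 H934E Pool.Agent.H160R2.CV MeasureTheory TopologicalSpace Filter Topology Metric Set
open Pool.Agent.H160R2.CV.Quad
open scoped ENNReal NNReal

/-- The part `(0, B)` of the lower side of the rectangle. -/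
def low (R : Rect) : Set ℂ := {z | z.im = 0 ∧ 0 < z.re ∧ z.re < R.B}

/-- A compact subset of the side has positive distance from its ends. -/
theorem low_margin (R : Rect) {A : Set ℂ} (hA : IsCompact A) (hAl : A ⊆ low R) :
    ∃ ρ : ℝ, 0 < ρ ∧ 2 * ρ ≤ R.H ∧ ∀ z ∈ A, z.im = 0 ∧ 2 * ρ ≤ z.re ∧ z.re ≤ R.B - 2 * ρ := by
  rcases A.eq_empty_or_nonempty with rfl | hne
  · exact ⟨R.H / 2, by have := R.hH; positivity, by linarith, fun z hz => absurd hz (Set.notMem_empty z)⟩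
  obtain ⟨z1, hz1, h1⟩ := hA.exists_isMinOn hne Complex.continuous_re.continuousOn
  obtain ⟨z2, hz2, h2⟩ := hA.exists_isMaxOn hne Complex.continuous_re.continuousOn
  have p1 := (hAl hz1).2.1
  have p2 := (hAl hz2).2.2
  have hH := R.hH
  refine ⟨min (R.H / 2) (min (z1.re / 2) ((R.B - z2.re) / 2)),
    lt_min (by positivity) (lt_min (by positivity) (by linarith)), ?_, ?_⟩
  · have := min_le_left (R.H / 2) (min (z1.re / 2) ((R.B - z2.re) / 2))
    linarith
  · intro z hz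
    have h3 := min_le_right (R.H / 2) (min (z1.re / 2) ((R.B - z2.re) / 2))
    have h4 := h3.trans (min_le_left _ _)
    have h5 := h3.trans (min_le_right _ _)
    have h6 : z1.re ≤ z.re := h1 hz
    have h7 : z.re ≤ z2.re := h2 hz
    exact ⟨(hAl hz).1, by linarith, by linarith⟩

/-- Bounds for the limits of the trace on compact subsets of the side. -/
theorem touch_bds (R : Rect) {A : Set ℂ} (hA : IsCompact A) (hAl : A ⊆ low R) :
    ∃ c C r0 : ℝ, 0 < c ∧ 0 < C ∧ 0 < r0 ∧ ∀ (δ : ℕ → ℝ) (hδ : ∀ i, 0 < δ i),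
      Tendsto δ atTop (𝓝 0) → ∀ μ : ProbabilityMeasure (NonemptyCompacts ℂ),
        Tendsto (fun i => R.law (hδ i)) atTop (𝓝 μ) →
        Bds (μ : Measure (NonemptyCompacts ℂ)) (fun K : NonemptyCompacts ℂ => (K : Set ℂ))
          (1 / 3) A c C r0 := by
  obtain ⟨ρ, hρ, hρH, hmar⟩ := low_margin R hA hAl
  obtain ⟨c, hc, h1⟩ := touch_one R hρ hρH
  obtain ⟨C, hC, h2⟩ := touch_two
  obtain ⟨M, hM⟩ := Metric.isBounded_iff.mp hA.isBounded
  obtain ⟨M1, hM1⟩ : ∃ M1, M1 = max M 0 + ρ := ⟨_, rfl⟩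
  have hM10 : 0 < M1 := by
    rw [hM1]
    have := le_max_right M 0
    linarith
  have hdist : ∀ z ∈ A, ∀ w ∈ A, ∀ s : ℝ, s ≤ ρ → max (dist z w) s ≤ M1 := by
    intro z hz w hw s hs
    rw [hM1]
    apply max_le
    · have := hM hz hw
      have h3 := le_max_left M 0
      linarith
    · have := le_max_right M 0
      linarith
  obtain ⟨C1, hC1⟩ : ∃ C1, C1 = C * (1 / ρ) ^ ((2 : ℝ) / 3) *
    (M1 ^ ((1 : ℝ) / 3) + ρ ^ ((1 : ℝ) / 3)) := ⟨_, rfl⟩
  have hC10 : 0 < C1 := by rw [hC1]; positivity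
  refine ⟨c, C1 * 2 ^ ((2 : ℝ) / 3), min (ρ / 256) (R.L0 / 256), hc, by positivity,
    lt_min (by positivity) (div_pos R.L0_pos (by norm_num)), ?_⟩
  intro δ hδ hlim μ hμ
  constructor
  · intro z hz r hr hr0
    obtain ⟨m1, m2, m3⟩ := hmar z hz
    have hcl : IsClosed (Pool.Agent.TH966.HD.Hit (fun K : NonemptyCompacts ℂ => (K : Set ℂ)) z r) :=
      NonemptyCompacts.isClosed_inter_nonempty_of_isClosed Metric.isClosed_closedBall
    have h := R.closed_ge hδ hμ (G := Pool.Agent.TH966.HD.Hit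
      (fun K : NonemptyCompacts ℂ => (K : Set ℂ)) z r) hcl (q := c * r ^ ((1 : ℝ) / 3)) (by
      filter_upwards [hlim.eventually_lt_const (show (0 : ℝ) < r / 64 by positivity)] with i hi
      have hr1 := hr0.trans (min_le_left _ _)
      have hr2 := hr0.trans (min_le_right _ _)
      exact h1 z r (δ i) m1 m2 m3 hr (by linarith) (hδ i) (by linarith) (by
        have := R.L0_pos
        linarith))
    exact (ENNReal.ofReal_le_iff_le_toReal (measure_ne_top _ _)).mp h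
  · intro z hz w hw r hr hr0
    obtain ⟨m1, m2, m3⟩ := hmar z hz
    obtain ⟨l1, l2, l3⟩ := hmar w hw
    have hr1 := hr0.trans (min_le_left _ _)
    have hr2 := hr0.trans (min_le_right _ _)
    have hL := R.L0_pos
    have hm0 : 0 < max (dist z w) r := lt_max_of_lt_right hr
    have hm0' : 0 < max (dist z w) (2 * r) := lt_max_of_lt_right (by positivity)
    have ho : IsOpen ({K : NonemptyCompacts ℂ | ((K : Set ℂ) ∩ Metric.ball z (2 * r)).Nonempty} ∩
        {K : NonemptyCompacts ℂ | ((K : Set ℂ) ∩ Metric.ball w (2 * r)).Nonempty}) :=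
      (NonemptyCompacts.isOpen_inter_nonempty_of_isOpen Metric.isOpen_ball).inter
        (NonemptyCompacts.isOpen_inter_nonempty_of_isOpen Metric.isOpen_ball)
    have h3 : (μ : Measure (NonemptyCompacts ℂ))
        ({K : NonemptyCompacts ℂ | ((K : Set ℂ) ∩ Metric.ball z (2 * r)).Nonempty} ∩
        {K : NonemptyCompacts ℂ | ((K : Set ℂ) ∩ Metric.ball w (2 * r)).Nonempty}) ≤
        ENNReal.ofReal (C1 * (2 * r) ^ ((2 : ℝ) / 3) * (max (dist z w) (2 * r)) ^ (-(1 / 3) : ℝ)) := by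
      refine (ProbabilityMeasure.le_liminf_measure_open_of_tendsto hμ ho).trans ?_
      apply Filter.liminf_le_of_frequently_le'
      apply Eventually.frequently
      filter_upwards [hlim.eventually_lt_const (show (0 : ℝ) < r / 64 by positivity)] with i hi
      rw [R.law_apply (hδ i) ho.measurableSet]
      apply ENNReal.ofReal_le_ofReal
      refine (h2 R ρ hρ hρH z w (2 * r) (δ i) m1 m2 m3 l1 l2 l3 (by linarith) (by linarith) (hδ i)
        (by linarith) (by linarith)).trans ?_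
      obtain ⟨D, hD⟩ : ∃ D, D = max (dist z w) (2 * r) := ⟨_, rfl⟩
      have hDM : D ≤ M1 := by rw [hD]; exact hdist z hz w hw (2 * r) (by linarith)
      rw [← hD] at hm0' ⊢
      have e1 : (2 * r / ρ) ^ ((2 : ℝ) / 3) = (1 / ρ) ^ ((2 : ℝ) / 3) * (2 * r) ^ ((2 : ℝ) / 3) := by
        rw [← Real.mul_rpow (by positivity) (by positivity)]
        congr 1
        ring
      have e2 : (ρ / D) ^ ((1 : ℝ) / 3) = ρ ^ ((1 : ℝ) / 3) * D ^ (-(1 / 3) : ℝ) := by
        rw [Real.div_rpow hρ.le hm0'.le, Real.rpow_neg hm0'.le, div_eq_mul_inv]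
      have e3 : 1 ≤ M1 ^ ((1 : ℝ) / 3) * D ^ (-(1 / 3) : ℝ) := by
        rw [Real.rpow_neg hm0'.le, ← div_eq_mul_inv, ← Real.div_rpow hM10.le hm0'.le]
        apply Real.one_le_rpow _ (by norm_num)
        rw [le_div_iff₀ hm0', one_mul]
        exact hDM
      rw [e1, e2]
      have e4 : 1 + ρ ^ ((1 : ℝ) / 3) * D ^ (-(1 / 3) : ℝ) ≤
          (M1 ^ ((1 : ℝ) / 3) + ρ ^ ((1 : ℝ) / 3)) * D ^ (-(1 / 3) : ℝ) := by
        rw [add_mul]
        linarith
      calc C * ((1 / ρ) ^ ((2 : ℝ) / 3) * (2 * r) ^ ((2 : ℝ) / 3)) *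
            (1 + ρ ^ ((1 : ℝ) / 3) * D ^ (-(1 / 3) : ℝ))
          ≤ C * ((1 / ρ) ^ ((2 : ℝ) / 3) * (2 * r) ^ ((2 : ℝ) / 3)) *
            ((M1 ^ ((1 : ℝ) / 3) + ρ ^ ((1 : ℝ) / 3)) * D ^ (-(1 / 3) : ℝ)) :=
            mul_le_mul_of_nonneg_left e4 (by positivity)
        _ = _ := by rw [hC1]; ring
    have h4 : (μ : Measure (NonemptyCompacts ℂ)).real
        (Pool.Agent.TH966.HD.Hit (fun K : NonemptyCompacts ℂ => (K : Set ℂ)) z r ∩
          Pool.Agent.TH966.HD.Hit (fun K : NonemptyCompacts ℂ => (K : Set ℂ)) w r) ≤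
        C1 * (2 * r) ^ ((2 : ℝ) / 3) * (max (dist z w) (2 * r)) ^ (-(1 / 3) : ℝ) := by
      apply ENNReal.toReal_le_of_le_ofReal (by positivity)
      refine (measure_mono ?_).trans h3
      rintro K ⟨⟨x, hx1, hx2⟩, ⟨y, hy1, hy2⟩⟩
      rw [Metric.mem_closedBall] at hx2 hy2
      refine ⟨⟨x, hx1, ?_⟩, ⟨y, hy1, ?_⟩⟩
      · rw [Metric.mem_ball]
        linarith
      · rw [Metric.mem_ball]
        linarith
    refine h4.trans ?_
    have e1 : (max (dist z w) (2 * r)) ^ (-(1 / 3) : ℝ) ≤ (max (dist z w) r) ^ (-(1 / 3) : ℝ) :=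
      Real.rpow_le_rpow_of_nonpos hm0 (max_le_max le_rfl (by linarith)) (by norm_num)
    rw [Real.mul_rpow (by norm_num) hr.le, show (2 * (1 / 3) : ℝ) = 2 / 3 by norm_num]
    calc C1 * (2 ^ ((2 : ℝ) / 3) * r ^ ((2 : ℝ) / 3)) * (max (dist z w) (2 * r)) ^ (-(1 / 3) : ℝ)
        ≤ C1 * (2 ^ ((2 : ℝ) / 3) * r ^ ((2 : ℝ) / 3)) * (max (dist z w) r) ^ (-(1 / 3) : ℝ) := by
          gcongr
      _ = _ := by ring

end Pool.Agent.TH966.GB
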