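import Pool.Agent.TH966.GB.Gen
import Pool.Agent.TH966.CF.Phys
import Pool.Agent.H389R2.CD.Fin
import Pool.Agent.H389R2.LV.Rsw

/-!
The cluster of the wired arc of a rectangle: hitting probabilities of small discs in the rectangle.
-/

set_option autoImplicit false
set_option maxHeartbeats 1000000

namespace Pool.Agent.TH966.GB

open H974 H934E Pool.Agent.H160R2.CV MeasureTheory TopologicalSpace Filter Topology Metric Set
open Pool.Agent.H389R2.Dim Pool.Agent.H389R2.CD Pool.Agent.TH966.CF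
open Pool.Agent.H160R2.CV.Quad H362P
open scoped ENNReal NNReal

/-- The position of a box in the discrete rectangle. -/
theorem geo {R : Rect} {z : ℂ} {η δ : ℝ} (hη : 0 < η) (hD : csq z (2 * η) ⊆ R.D)
    (hδ : 0 < δ) (hδη : 8 * δ ≤ η) :
    (R.x0 δ ≤ (cx δ z).1 - (⌊η / δ⌋₊ : ℤ) - 2 ∧ (cx δ z).1 + (⌊η / δ⌋₊ : ℤ) + 2 ≤ R.x1 δ) ∧
    (0 ≤ (cx δ z).2 - (⌊η / δ⌋₊ : ℤ) - 2 ∧ (cx δ z).2 + (⌊η / δ⌋₊ : ℤ) + 2 ≤ R.y1 δ) := by
  obtain ⟨a1, a2⟩ := fl_bounds hδ z.re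
  obtain ⟨b1, b2⟩ := fl_bounds hδ z.im
  have hn : (⌊η / δ⌋₊ : ℝ) * δ ≤ η := by
    have := Nat.floor_le (show 0 ≤ η / δ by positivity)
    rwa [le_div_iff₀ hδ] at this
  have e1 : (cx δ z).1 = ⌊z.re / δ⌋ := rfl
  have e2 : (cx δ z).2 = ⌊z.im / δ⌋ - 1 := rfl
  obtain ⟨n, hnd⟩ : ∃ n : ℤ, n = (⌊η / δ⌋₊ : ℤ) := ⟨_, rfl⟩
  have hnR : (n : ℝ) * δ ≤ η := by rw [hnd]; exact_mod_cast hn
  have hn0 : 0 ≤ n := by rw [hnd]; positivity
  rw [← hnd]
  have hv : ∀ v : Vtx, ((cx δ z).1 - n - 2 ≤ v.1 ∧ v.1 ≤ (cx δ z).1 + n + 2) →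
      ((cx δ z).2 - n - 2 ≤ v.2 ∧ v.2 ≤ (cx δ z).2 + n + 2) → v ∈ R.verts δ := by
    rintro v ⟨h1, h2⟩ ⟨h3, h4⟩
    rw [R.mem_verts hδ]
    apply hD
    rw [e1] at h1 h2
    rw [e2] at h3 h4
    have g1 : ((⌊z.re / δ⌋ : ℝ) - (n : ℝ) - 2) ≤ v.1 := by exact_mod_cast h1
    have g2 : (v.1 : ℝ) ≤ (⌊z.re / δ⌋ : ℝ) + (n : ℝ) + 2 := by exact_mod_cast h2
    have g3 : ((⌊z.im / δ⌋ : ℝ) - 1 - (n : ℝ) - 2) ≤ v.2 := by exact_mod_cast h3
    have g4 : (v.2 : ℝ) ≤ (⌊z.im / δ⌋ : ℝ) - 1 + (n : ℝ) + 2 := by exact_mod_cast h4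
    have f1 := mul_le_mul_of_nonneg_left g1 hδ.le
    have f2 := mul_le_mul_of_nonneg_left g2 hδ.le
    have f3 := mul_le_mul_of_nonneg_left g3 hδ.le
    have f4 := mul_le_mul_of_nonneg_left g4 hδ.le
    unfold csq pt
    simp only [Set.mem_ofPred_eq, abs_le]
    refine ⟨⟨by nlinarith, by nlinarith⟩, ⟨by nlinarith, by nlinarith⟩⟩
  have k1 := R.mem_verts'.mp (hv ((cx δ z).1 - n - 2, (cx δ z).2 - n - 2)
    ⟨le_rfl, by show (cx δ z).1 - n - 2 ≤ (cx δ z).1 + n + 2; omega⟩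
    ⟨le_rfl, by show (cx δ z).2 - n - 2 ≤ (cx δ z).2 + n + 2; omega⟩)
  have k2 := R.mem_verts'.mp (hv ((cx δ z).1 + n + 2, (cx δ z).2 + n + 2)
    ⟨by show (cx δ z).1 - n - 2 ≤ (cx δ z).1 + n + 2; omega, le_rfl⟩
    ⟨by show (cx δ z).2 - n - 2 ≤ (cx δ z).2 + n + 2; omega, le_rfl⟩)
  exact ⟨⟨k1.1.1, k2.1.2⟩, ⟨k1.2.1, k2.2.2⟩⟩

/-- If the wired cluster comes close to `z`, a small box is connected to a large distance. -/
theorem ev_up {R : Rect} {z : ℂ} {s η δ : ℝ} (hs : 0 < s) (hsη : 16 * s ≤ η)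
    (hD : csq z (2 * η) ⊆ R.D) (hδ : 0 < δ) (hδs : 16 * δ ≤ s) {F : Finset Edg}
    (h : (cset R δ F ∩ ball z s).Nonempty) : Ex1 (cx δ z) ⌈2 * s / δ⌉₊ ⌊η / δ⌋₊ F := by
  have hη : 0 < η := by linarith
  obtain ⟨⟨k1, k2⟩, k3, k4⟩ := geo hη hD hδ (by linarith)
  obtain ⟨w, hw1, hw2⟩ := h
  obtain ⟨v, hv, hv1, hv2⟩ := cset_near R hδ.le hw1
  rw [mem_ball, Complex.dist_eq] at hw2
  have p1 := (Complex.abs_re_le_norm (w - z)).trans_lt hw2
  have p2 := (Complex.abs_im_le_norm (w - z)).trans_lt hw2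
  rw [Complex.sub_re, abs_lt] at p1
  rw [Complex.sub_im, abs_lt] at p2
  unfold pt at hv1 hv2
  simp only at hv1 hv2
  rw [abs_le] at hv1 hv2
  obtain ⟨a1, a2⟩ := fl_bounds hδ z.re
  obtain ⟨b1, b2⟩ := fl_bounds hδ z.im
  have e1 : (cx δ z).1 = ⌊z.re / δ⌋ := rfl
  have e2 : (cx δ z).2 = ⌊z.im / δ⌋ - 1 := rfl
  have m2 : 2 * s ≤ (⌈2 * s / δ⌉₊ : ℝ) * δ := by
    have := Nat.le_ceil (2 * s / δ)
    rwa [div_le_iff₀ hδ] at this
  have hmn : ⌈2 * s / δ⌉₊ ≤ ⌊η / δ⌋₊ := by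
    have n2 : η < ((⌊η / δ⌋₊ : ℝ) + 1) * δ := by
      have := Nat.lt_floor_add_one (η / δ)
      rwa [div_lt_iff₀ hδ] at this
    have m1 : (⌈2 * s / δ⌉₊ : ℝ) * δ < 2 * s + δ := by
      have := Nat.ceil_lt_add_one (show 0 ≤ 2 * s / δ by positivity)
      calc (⌈2 * s / δ⌉₊ : ℝ) * δ < (2 * s / δ + 1) * δ := mul_lt_mul_of_pos_right this hδ
        _ = 2 * s + δ := by field_simp
    have : (⌈2 * s / δ⌉₊ : ℝ) ≤ (⌊η / δ⌋₊ : ℝ) := by
      by_contra hcon
      push Not at hcon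
      nlinarith
    exact_mod_cast this
  have hu1 : ∀ a : ℤ, |(a : ℝ)| * δ ≤ 2 * s → |a| ≤ (⌈2 * s / δ⌉₊ : ℤ) := by
    intro a ha
    have : |(a : ℝ)| ≤ (⌈2 * s / δ⌉₊ : ℝ) := by
      by_contra hcon
      push Not at hcon
      nlinarith
    exact_mod_cast this
  have q1 : |v.1 - (cx δ z).1| ≤ (⌈2 * s / δ⌉₊ : ℤ) := by
    apply hu1
    rw [e1, ← abs_of_pos hδ, ← abs_mul, abs_of_pos hδ, abs_le]
    push_cast
    constructor <;> nlinarith
  have q2 : |v.2 - (cx δ z).2| ≤ (⌈2 * s / δ⌉₊ : ℤ) := by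
    apply hu1
    rw [e2, ← abs_of_pos hδ, ← abs_mul, abs_of_pos hδ, abs_le]
    push_cast
    constructor <;> nlinarith
  rw [abs_le] at q1 q2
  refine Ex1_of_reach (A := R.wired δ) (v := (0, 0)) (u := v) hmn ?_ ?_ ?_ hv.symm
  · rintro ⟨x, y, b⟩ he hE
    unfold Rect.wired at he
    simp only [Set.mem_ofPred_eq] at he
    cases b
    · rw [mem_RE_false] at hE
      rcases he with h1 | h1 | h1
      · exact absurd h1.1 (by simp)
      · omega
      · exact absurd h1.1 (by simp)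
    · rw [mem_RE_true] at hE
      rcases he with h1 | h1 | h1
      · omega
      · exact absurd h1.1 (by simp)
      · omega
  · unfold inR
    omega
  · right; right; left
    show (0 : ℤ) ≤ _
    omega

/-- Two-point upper bound at small mesh. -/
theorem two_mesh (hAr : ArS) : ∃ C : ℝ, 0 < C ∧ ∀ (R : Rect) (z w : ℂ) (s η δ : ℝ), 0 < s →
    64 * s ≤ η → csq z (2 * η) ⊆ R.D → csq w (2 * η) ⊆ R.D → 0 < δ → 16 * δ ≤ s →
    Pr P (R.edges δ) (fun F => (cset R δ F ∩ ball z s).Nonempty ∧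
      (cset R δ F ∩ ball w s).Nonempty) ≤
      C * (s / η) ^ ((5 : ℝ) / 24) * (1 + (η / max (dist z w) s) ^ ((5 : ℝ) / 48)) := by
  obtain ⟨K, hK, hb⟩ := two_phys hAr
  obtain ⟨C, hC, hup⟩ := barm_le hAr
  refine ⟨(C * 4) ^ 2 * (1 + K), by positivity, ?_⟩
  intro R z w s η δ hs hsη hz hw hδ hδs
  have hη : 0 < η := by linarith
  have h1 : Pr P (R.edges δ) (fun F => (cset R δ F ∩ ball z s).Nonempty ∧
      (cset R δ F ∩ ball w s).Nonempty) ≤ Pr P (R.edges δ)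
      (fun F => Ex1 (cx δ z) ⌈2 * s / δ⌉₊ ⌊η / δ⌋₊ F ∧ Ex1 (cx δ w) ⌈2 * s / δ⌉₊ ⌊η / δ⌋₊ F) :=
    Pr_mono Quad.okP (fun F _ hF => ⟨ev_up hs (by linarith) hz hδ hδs hF.1,
      ev_up hs (by linarith) hw hδ hδs hF.2⟩)
  have h2 := hb (R.edges δ) z w (2 * s) η δ (by linarith) (by linarith) hδ (by linarith)
  refine h1.trans (h2.trans ?_)
  obtain ⟨m, hm⟩ : ∃ m, m = ⌈2 * s / δ⌉₊ := ⟨_, rfl⟩
  obtain ⟨n, hn⟩ : ∃ n, n = ⌊η / δ⌋₊ := ⟨_, rfl⟩
  rw [← hm, ← hn]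
  have n1 : (n : ℝ) * δ ≤ η := by
    have := Nat.floor_le (show 0 ≤ η / δ by positivity)
    rw [le_div_iff₀ hδ] at this
    rw [hn]; exact this
  have n2 : η < ((n : ℝ) + 1) * δ := by
    have := Nat.lt_floor_add_one (η / δ)
    rw [div_lt_iff₀ hδ] at this
    rw [hn]; exact this
  have m1 : (m : ℝ) * δ < 2 * s + δ := by
    have := Nat.ceil_lt_add_one (show 0 ≤ 2 * s / δ by positivity)
    rw [hm]
    calc (⌈2 * s / δ⌉₊ : ℝ) * δ < (2 * s / δ + 1) * δ := mul_lt_mul_of_pos_right this hδ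
      _ = 2 * s + δ := by field_simp
  have m2 : 2 * s ≤ (m : ℝ) * δ := by
    have := Nat.le_ceil (2 * s / δ)
    rw [div_le_iff₀ hδ] at this
    rw [hm]; exact this
  have hm1 : 1 ≤ m := by
    have : (0 : ℝ) < m := by
      by_contra hcon
      push Not at hcon
      nlinarith
    exact_mod_cast this
  have hmn : 3 * m ≤ n := by
    have : ((3 * m : ℕ) : ℝ) ≤ (n : ℝ) := by
      push_cast
      by_contra hcon
      push Not at hcon
      nlinarith
    exact_mod_cast this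
  have hn0 : (0 : ℝ) < n := by
    have : 0 < n := by omega
    exact_mod_cast this
  have hq := barm_nonneg (q := 1 / 2) (by norm_num) (by norm_num) m n
  have h3 := hup m n hm1 hmn
  have h4 : (m : ℝ) / n ≤ 4 * (s / η) := by
    rw [div_le_iff₀ hn0]
    have h5 : (m : ℝ) * δ ≤ 4 * (s / η) * n * δ := by
      have h6 : 4 * (s / η) * n * δ = 4 * s * (n * δ / η) := by field_simp
      rw [h6]
      have h7 : (3 / 4 : ℝ) ≤ n * δ / η := by
        rw [le_div_iff₀ hη]; nlinarith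
      nlinarith
    exact le_of_mul_le_mul_right h5 hδ
  have h5 : ((m : ℝ) / n) ^ ((5 : ℝ) / 48) ≤ 4 * (s / η) ^ ((5 : ℝ) / 48) := by
    calc ((m : ℝ) / n) ^ ((5 : ℝ) / 48) ≤ (4 * (s / η)) ^ ((5 : ℝ) / 48) :=
          Real.rpow_le_rpow (by positivity) h4 (by norm_num)
      _ = 4 ^ ((5 : ℝ) / 48) * (s / η) ^ ((5 : ℝ) / 48) :=
          Real.mul_rpow (by norm_num) (by positivity)
      _ ≤ 4 * (s / η) ^ ((5 : ℝ) / 48) := by
          apply mul_le_mul_of_nonneg_right _ (by positivity)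
          calc (4 : ℝ) ^ ((5 : ℝ) / 48) ≤ 4 ^ (1 : ℝ) :=
                Real.rpow_le_rpow_of_exponent_le (by norm_num) (by norm_num)
            _ = 4 := Real.rpow_one _
  have h6 : barm (1 / 2) m n ^ 2 ≤ (C * 4) ^ 2 * (s / η) ^ ((5 : ℝ) / 24) := by
    have h7 : barm (1 / 2) m n ≤ C * 4 * (s / η) ^ ((5 : ℝ) / 48) := by
      refine h3.trans ?_
      have := mul_le_mul_of_nonneg_left h5 hC.le
      linarith
    have h8 := pow_le_pow_left₀ hq h7 2
    refine h8.trans (le_of_eq ?_)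
    rw [mul_pow]
    congr 1
    rw [← Real.rpow_natCast ((s / η) ^ ((5 : ℝ) / 48)) 2, ← Real.rpow_mul (by positivity)]
    congr 1
    push_cast; ring
  have hmx : 0 < max (dist z w) s := lt_of_lt_of_le hs (le_max_right _ _)
  have hmx2 : max (dist z w) s ≤ max (dist z w) (2 * s) := max_le_max le_rfl (by linarith)
  have h7 : (1 + if dist z w ≤ 8 * η then K * (η / max (dist z w) (2 * s)) ^ ((5 : ℝ) / 48)
      else 0) ≤ (1 + K) * (1 + (η / max (dist z w) s) ^ ((5 : ℝ) / 48)) := by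
    have h8 : (η / max (dist z w) (2 * s)) ^ ((5 : ℝ) / 48) ≤
        (η / max (dist z w) s) ^ ((5 : ℝ) / 48) := by
      apply Real.rpow_le_rpow (by positivity) _ (by norm_num)
      gcongr
    have h9 : 0 ≤ (η / max (dist z w) s) ^ ((5 : ℝ) / 48) := by positivity
    split_ifs
    · have := mul_le_mul_of_nonneg_left h8 hK.le
      nlinarith
    · nlinarith
  calc barm (1 / 2) m n ^ 2 * (1 + if dist z w ≤ 8 * η then
        K * (η / max (dist z w) (2 * s)) ^ ((5 : ℝ) / 48) else 0)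
      ≤ ((C * 4) ^ 2 * (s / η) ^ ((5 : ℝ) / 24)) *
        ((1 + K) * (1 + (η / max (dist z w) s) ^ ((5 : ℝ) / 48))) := by
        apply mul_le_mul h6 h7 _ (by positivity)
        split_ifs <;> positivity
    _ = _ := by ring

/-- One-point lower bound at small mesh. -/
theorem one_mesh (hAr : ArS) (R : Rect) {η : ℝ} (hη : 0 < η) : ∃ c : ℝ, 0 < c ∧
    ∀ (z : ℂ) (r δ : ℝ), 0 < r → 64 * r ≤ η → csq z (2 * η) ⊆ R.D → 0 < δ → 16 * δ ≤ r →
      4 * δ < R.L0 →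
      c * r ^ ((5 : ℝ) / 48) ≤ Pr P (R.edges δ) (fun F => (cset R δ F ∩ closedBall z r).Nonempty) := by
  obtain ⟨c1, hc1, hlo⟩ := barm_ge hAr
  obtain ⟨κ, hκ⟩ : ∃ κ : ℕ, (R.A + R.B) / η * 8 + 8 ≤ κ := exists_nat_ge _
  obtain ⟨c2, hc2, hrsw⟩ := Pool.Agent.H389R2.LV.rsw_long κ
  have hR0 := R.hA
  have hR1 := R.hB
  refine ⟨c1 * (1 / (16 * η)) ^ ((5 : ℝ) / 48) * (1 / 2) ^ 188 * c2, by positivity, ?_⟩
  intro z r δ hr hrη hD hδ hδr hδL
  obtain ⟨g1, g2, g3, g4⟩ := R.small_geom hδ hδL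
  obtain ⟨⟨k1, k2⟩, k3, k4⟩ := geo hη hD hδ (by linarith)
  have hbo := bo_edges hη hD hδ (by linarith)
  obtain ⟨a1, a2⟩ := fl_bounds hδ z.re
  obtain ⟨b1, b2⟩ := fl_bounds hδ z.im
  have e1 : (cx δ z).1 = ⌊z.re / δ⌋ := rfl
  have e2 : (cx δ z).2 = ⌊z.im / δ⌋ - 1 := rfl
  obtain ⟨v, hv⟩ : ∃ v, v = cx δ z := ⟨_, rfl⟩
  rw [← hv] at k1 k2 k3 k4 hbo e1 e2
  obtain ⟨N, hN⟩ : ∃ N, N = ⌊η / δ⌋₊ := ⟨_, rfl⟩
  rw [← hN] at k1 k2 k3 k4 hbo
  obtain ⟨n, hn⟩ : ∃ n, n = ⌊η / (4 * δ)⌋₊ := ⟨_, rfl⟩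
  obtain ⟨m, hm⟩ : ∃ m, m = ⌊r / (4 * δ)⌋₊ := ⟨_, rfl⟩
  have hN2 : η < ((N : ℝ) + 1) * δ := by
    have := Nat.lt_floor_add_one (η / δ)
    rw [div_lt_iff₀ hδ] at this
    rw [hN]; exact this
  have n1 : (n : ℝ) * (4 * δ) ≤ η := by
    have := Nat.floor_le (show 0 ≤ η / (4 * δ) by positivity)
    rw [le_div_iff₀ (by positivity)] at this
    rw [hn]; exact this
  have n2 : η < ((n : ℝ) + 1) * (4 * δ) := by
    have := Nat.lt_floor_add_one (η / (4 * δ))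
    rw [div_lt_iff₀ (by positivity)] at this
    rw [hn]; exact this
  have m1 : (m : ℝ) * (4 * δ) ≤ r := by
    have := Nat.floor_le (show 0 ≤ r / (4 * δ) by positivity)
    rw [le_div_iff₀ (by positivity)] at this
    rw [hm]; exact this
  have m2 : r < ((m : ℝ) + 1) * (4 * δ) := by
    have := Nat.lt_floor_add_one (r / (4 * δ))
    rw [div_lt_iff₀ (by positivity)] at this
    rw [hm]; exact this
  have hm1 : 1 ≤ m := by
    have : (0 : ℝ) < m := by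
      by_contra hcon
      push Not at hcon
      nlinarith
    exact_mod_cast this
  have hmn : 3 * m ≤ n := by
    have : ((3 * m : ℕ) : ℝ) ≤ (n : ℝ) := by
      push_cast
      by_contra hcon
      push Not at hcon
      nlinarith
    exact_mod_cast this
  have hnN : 3 * n ≤ N := by
    have : ((3 * n : ℕ) : ℝ) < (N : ℝ) + 1 := by
      push_cast
      by_contra hcon
      push Not at hcon
      nlinarith
    have h2 : 3 * n < N + 1 := by exact_mod_cast this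
    omega
  have hm0 : (0 : ℝ) < m := by exact_mod_cast hm1
  have hn0 : (0 : ℝ) < n := by
    have : 0 < n := by omega
    exact_mod_cast this
  have hbo3 : bo v (3 * n) ⊆ R.edges δ := by
    refine Finset.Subset.trans ?_ hbo
    unfold bo
    apply RE_subset <;> push_cast <;> omega
  have hLsub : LRE (R.x0 δ) v.1 (v.2 - n) (v.2 + n) ⊆ R.edges δ := by
    rintro ⟨x, y, b⟩ he
    have he' := LRE_subset_RE he
    unfold Rect.edges
    rw [H973.mem_ES, R.mem_verts', R.mem_verts']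
    cases b
    · rw [mem_RE_false] at he'
      simp only [src_mk, tgt_false]
      omega
    · rw [mem_RE_true] at he'
      simp only [src_mk, tgt_true]
      omega
  -- the probabilities
  have p1 : c1 * ((m : ℝ) / (3 * n : ℕ)) ^ ((5 : ℝ) / 48) ≤ Pr P (R.edges δ) (Ex1 v m (3 * n)) :=
    (hlo m (3 * n) hm1 (by omega)).trans (pr_Ex1_ge hbo3)
  have p2 : (1 / 2 : ℝ) ^ 188 ≤ Pr P (R.edges δ) (CA v n (3 * n)) := pr_CA (by omega) hbo3
  have p3 : c2 ≤ Pr P (R.edges δ) (LRc (R.x0 δ) v.1 (v.2 - n) (v.2 + n)) := by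
    have h1 : Pr P (R.edges δ) (LRc (R.x0 δ) v.1 (v.2 - n) (v.2 + n)) =
        hh (1 / 2) (v.1 - R.x0 δ) (v.2 + n - (v.2 - n)) := pr_LRc (1 / 2) hLsub
    rw [h1, show v.2 + (n : ℤ) - (v.2 - n) = 2 * n by ring]
    apply hrsw
    · omega
    · omega
    · have h2 : ((v.1 - R.x0 δ : ℤ) : ℝ) ≤ ((κ * (2 * n) : ℤ) : ℝ) := by
        push_cast
        have h3 : (v.1 : ℝ) * δ ≤ z.re := by rw [e1]; linarith
        obtain ⟨⟨x1, x2⟩, -⟩ := R.small_geom2 hδ
        have h4 : -(R.x0 δ : ℝ) * δ ≤ R.A := by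
          have : -(R.x0 δ : ℝ) < R.A / δ := by linarith
          rw [lt_div_iff₀ hδ] at this
          exact this.le
        have hzB : z.re < R.B := by
          have : z ∈ R.D := hD (by
            unfold csq
            simp only [Set.mem_ofPred_eq, sub_self, abs_zero]
            constructor <;> linarith)
          unfold Rect.D at this
          exact this.2.1
        have h5 : ((v.1 : ℝ) - R.x0 δ) * δ ≤ R.A + R.B := by nlinarith
        have h6 : R.A + R.B ≤ (κ : ℝ) * (2 * n) * δ := by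
          have h7 : (R.A + R.B) / η * 8 ≤ κ := by linarith
          have h8 : η ≤ 8 * (n * δ) := by nlinarith
          have h9 : R.A + R.B = (R.A + R.B) / η * η := by field_simp
          have h10 : 0 ≤ (R.A + R.B) / η := by positivity
          have h11 : (R.A + R.B) / η * η ≤ (R.A + R.B) / η * (8 * (n * δ)) :=
            mul_le_mul_of_nonneg_left h8 h10
          have h12 : (R.A + R.B) / η * 8 * (n * δ) ≤ κ * (n * δ) :=
            mul_le_mul_of_nonneg_right h7 (by positivity)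
          have h13 : 0 ≤ (κ : ℝ) * (n * δ) := by positivity
          nlinarith
        exact le_of_mul_le_mul_right (h5.trans h6) hδ
      exact_mod_cast h2
  have i1 : IncrE (R.edges δ) (Ex1 v m (3 * n)) := fun F G h _ hF => Ex1_inc v m (3 * n) F G h hF
  have i2 : IncrE (R.edges δ) (CA v n (3 * n)) := CA_incr _ _ _ _
  have i3 : IncrE (R.edges δ) (LRc (R.x0 δ) v.1 (v.2 - n) (v.2 + n)) := LRc_incr _ _ _ _ _
  have q1 := Pr_harris Quad.okP i1 i2
  have q2 := Pr_harris Quad.okP (S := R.edges δ)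
    (A := fun F => Ex1 v m (3 * n) F ∧ CA v n (3 * n) F)
    (B := LRc (R.x0 δ) v.1 (v.2 - n) (v.2 + n))
    (fun F G h hG hF => ⟨i1 F G h hG hF.1, i2 F G h hG hF.2⟩) i3
  -- the deterministic part
  have hdet : Pr P (R.edges δ) (fun F => (Ex1 v m (3 * n) F ∧ CA v n (3 * n) F) ∧
      LRc (R.x0 δ) v.1 (v.2 - n) (v.2 + n) F) ≤
      Pr P (R.edges δ) (fun F => (cset R δ F ∩ closedBall z r).Nonempty) := by
    refine Pr_mono Quad.okP ?_
    rintro F hF ⟨⟨hE, hC⟩, hL⟩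
    obtain ⟨u, w, u1, u2, u3⟩ := Ex1_out hE
    obtain ⟨y, y', y1, y2, y3⟩ := hL
    have hn3 : n < 3 * n := by omega
    obtain ⟨x, hx⟩ := CA_meet hn3 hC
    have r1 := hx u w (by omega) u2 u3
    have r2 := hx (v.1, y') (R.x0 δ, y) (by
      unfold nv
      simp only [Prod.fst_sub, Prod.snd_sub, sub_self, Int.natAbs_zero]
      omega) (by
      unfold nv
      simp only [Prod.fst_sub, Prod.snd_sub]
      omega) (y3.mono Set.inter_subset_left).symm
    have r3 : Reach (R.wired δ) (0, 0) (R.x0 δ, y) :=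
      wired_left R g1.le (by omega) (by omega)
    have r4 : u ∈ R.clu δ F := by
      show Reach (↑F ∪ R.wired δ) (0, 0) u
      refine (r3.mono Set.subset_union_right).trans ?_
      refine Reach.trans ?_ (r1.symm.mono Set.subset_union_left)
      refine Reach.trans ?_ (r2.mono Set.subset_union_left)
      exact (y3.mono Set.inter_subset_left).mono Set.subset_union_left
    refine ⟨pt δ u, Or.inl ⟨u, r4, rfl⟩, ?_⟩
    rw [mem_closedBall, Complex.dist_eq]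
    refine (Complex.norm_le_abs_re_add_abs_im _).trans ?_
    have u1' : ((nv (u - v) : ℕ) : ℝ) ≤ (m : ℝ) := by exact_mod_cast u1
    rw [nvR] at u1'
    have w1 := (le_max_left _ _).trans u1'
    have w2 := (le_max_right _ _).trans u1'
    rw [abs_le] at w1 w2
    rw [e1] at w1
    rw [e2] at w2
    push_cast at w2
    unfold pt
    simp only [Complex.sub_re, Complex.sub_im]
    have f1 := mul_le_mul_of_nonneg_left w1.1 hδ.le
    have f2 := mul_le_mul_of_nonneg_left w1.2 hδ.le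
    have f3 := mul_le_mul_of_nonneg_left w2.1 hδ.le
    have f4 := mul_le_mul_of_nonneg_left w2.2 hδ.le
    have t1 : |δ * (u.1 : ℝ) - z.re| ≤ r / 4 + δ := by
      rw [abs_le]
      constructor <;> nlinarith
    have t2 : |δ * ((u.2 : ℝ) + 1) - z.im| ≤ r / 4 + δ := by
      rw [abs_le]
      constructor <;> nlinarith
    linarith
  refine le_trans ?_ hdet
  refine le_trans ?_ q2
  refine le_trans ?_ (mul_le_mul_of_nonneg_right q1 (Pr_nonneg Quad.okP _ _))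
  have h7 : c1 * (1 / (16 * η)) ^ ((5 : ℝ) / 48) * r ^ ((5 : ℝ) / 48) ≤
      c1 * ((m : ℝ) / (3 * n : ℕ)) ^ ((5 : ℝ) / 48) := by
    rw [mul_assoc, ← Real.mul_rpow (by positivity) hr.le]
    apply mul_le_mul_of_nonneg_left _ hc1.le
    apply Real.rpow_le_rpow (by positivity) _ (by norm_num)
    push_cast
    rw [le_div_iff₀ (by positivity)]
    have h8 : 1 / (16 * η) * r * (3 * n) * δ ≤ m * δ := by
      have e3 : 1 / (16 * η) * r * (3 * n) * δ = r * (3 / 16) * (n * δ / η) := by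
        field_simp
      rw [e3]
      have h9 : n * δ / η ≤ 1 / 4 := by
        rw [div_le_iff₀ hη]; linarith
      have h10 : 0 ≤ n * δ / η := by positivity
      nlinarith
    exact le_of_mul_le_mul_right h8 hδ
  calc c1 * (1 / (16 * η)) ^ ((5 : ℝ) / 48) * (1 / 2) ^ 188 * c2 * r ^ ((5 : ℝ) / 48)
      = (c1 * (1 / (16 * η)) ^ ((5 : ℝ) / 48) * r ^ ((5 : ℝ) / 48)) * (1 / 2) ^ 188 * c2 := by
        ring
    _ ≤ Pr P (R.edges δ) (Ex1 v m (3 * n)) * Pr P (R.edges δ) (CA v n (3 * n)) *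
        Pr P (R.edges δ) (LRc (R.x0 δ) v.1 (v.2 - n) (v.2 + n)) := by
        apply mul_le_mul _ p3 hc2.le
          (mul_nonneg (Pr_nonneg Quad.okP _ _) (Pr_nonneg Quad.okP _ _))
        exact mul_le_mul (h7.trans p1) p2 (by positivity) (Pr_nonneg Quad.okP _ _)

end Pool.Agent.TH966.GB
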