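import Pool.Agent.TH966.GB.Wir
import Pool.Agent.TH966.CF.Upper

/-!
The cluster of the wired arc of a rectangle: bounds for the weak limits.
-/

set_option autoImplicit false
set_option maxHeartbeats 1000000

namespace Pool.Agent.TH966.GB

open H974 H934E Pool.Agent.H160R2.CV MeasureTheory TopologicalSpace Filter Topology Metric Set
open Pool.Agent.H389R2.Dim Pool.Agent.H389R2.CD Pool.Agent.TH966.CF
open Pool.Agent.H160R2.CV.Quad H362P
open scoped ENNReal NNReal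

theorem hit_meas (z : ℂ) (r : ℝ) :
    MeasurableSet (Pool.Agent.TH966.HD.Hit (fun K : NonemptyCompacts ℂ => (K : Set ℂ)) z r) :=
  (NonemptyCompacts.isClosed_inter_nonempty_of_isClosed Metric.isClosed_closedBall).measurableSet

/-- From the discrete bounds to the limit. -/
theorem bds_lim {S : ℕ → Finset Edg} {K : ℕ → Finset Edg → NonemptyCompacts ℂ}
    {μ : ProbabilityMeasure (NonemptyCompacts ℂ)}
    (hμ : Tendsto (fun i => lawP (S i) (K i)) atTop (𝓝 μ)) {α c C r0 : ℝ} (hα : 0 < α)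
    (hC : 0 < C) {A : Set ℂ}
    (h1 : ∀ z ∈ A, ∀ r : ℝ, 0 < r → r ≤ r0 → ∀ᶠ i in atTop,
      c * r ^ α ≤ Pr P (S i) (fun F => ((K i F : Set ℂ) ∩ closedBall z r).Nonempty))
    (h2 : ∀ z ∈ A, ∀ w ∈ A, ∀ s : ℝ, 0 < s → s ≤ 2 * r0 → ∀ᶠ i in atTop,
      Pr P (S i) (fun F => ((K i F : Set ℂ) ∩ ball z s).Nonempty ∧
        ((K i F : Set ℂ) ∩ ball w s).Nonempty) ≤ C * s ^ (2 * α) * (max (dist z w) s) ^ (-α)) :
    Bds (μ : Measure (NonemptyCompacts ℂ)) (fun K : NonemptyCompacts ℂ => (K : Set ℂ)) α A c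
      (C * 2 ^ (2 * α)) r0 := by
  constructor
  · intro z hz r hr hr0
    have hc : IsClosed (Pool.Agent.TH966.HD.Hit (fun K : NonemptyCompacts ℂ => (K : Set ℂ)) z r) :=
      NonemptyCompacts.isClosed_inter_nonempty_of_isClosed Metric.isClosed_closedBall
    have h := lim_closed_ge hμ hc (h1 z hz r hr hr0)
    exact (ENNReal.ofReal_le_iff_le_toReal (measure_ne_top _ _)).mp h
  · intro z hz w hw r hr hr0
    have hm0 : 0 < max (dist z w) r := lt_max_of_lt_right hr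
    have hm0' : 0 < max (dist z w) (2 * r) := lt_max_of_lt_right (by positivity)
    have ho : IsOpen ({K : NonemptyCompacts ℂ | ((K : Set ℂ) ∩ Metric.ball z (2 * r)).Nonempty} ∩
        {K : NonemptyCompacts ℂ | ((K : Set ℂ) ∩ Metric.ball w (2 * r)).Nonempty}) :=
      (NonemptyCompacts.isOpen_inter_nonempty_of_isOpen Metric.isOpen_ball).inter
        (NonemptyCompacts.isOpen_inter_nonempty_of_isOpen Metric.isOpen_ball)
    have h := lim_open_le hμ ho (h2 z hz w hw (2 * r) (by linarith) (by linarith))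
    have h3 : (μ : Measure (NonemptyCompacts ℂ)).real
        (Pool.Agent.TH966.HD.Hit (fun K : NonemptyCompacts ℂ => (K : Set ℂ)) z r ∩
          Pool.Agent.TH966.HD.Hit (fun K : NonemptyCompacts ℂ => (K : Set ℂ)) w r) ≤
        C * (2 * r) ^ (2 * α) * (max (dist z w) (2 * r)) ^ (-α) := by
      apply ENNReal.toReal_le_of_le_ofReal (by positivity)
      refine (measure_mono ?_).trans h
      rintro K ⟨⟨x, hx1, hx2⟩, ⟨y, hy1, hy2⟩⟩
      rw [Metric.mem_closedBall] at hx2 hy2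
      refine ⟨⟨x, hx1, ?_⟩, ⟨y, hy1, ?_⟩⟩
      · rw [Metric.mem_ball]
        linarith
      · rw [Metric.mem_ball]
        linarith
    refine h3.trans ?_
    have e1 : (max (dist z w) (2 * r)) ^ (-α) ≤ (max (dist z w) r) ^ (-α) :=
      Real.rpow_le_rpow_of_nonpos hm0 (max_le_max le_rfl (by linarith)) (by linarith)
    rw [Real.mul_rpow (by norm_num) hr.le]
    calc C * (2 ^ (2 * α) * r ^ (2 * α)) * (max (dist z w) (2 * r)) ^ (-α)
        ≤ C * (2 ^ (2 * α) * r ^ (2 * α)) * (max (dist z w) r) ^ (-α) := by gcongr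
      _ = _ := by ring

theorem csq_ball {z : ℂ} {s0 η : ℝ} (h : 4 * η < s0) : csq z (2 * η) ⊆ ball z s0 := by
  rintro w ⟨h1, h2⟩
  rw [mem_ball, Complex.dist_eq]
  refine (Complex.norm_le_abs_re_add_abs_im _).trans_lt ?_
  rw [Complex.sub_re, Complex.sub_im]
  linarith

/-- Bounds for the limits of the wired cluster on compact subsets of the domain. -/
theorem wired_bds (hAr : ArS) (R : Rect) {A : Set ℂ} (hAc : IsCompact A) (hAD : A ⊆ R.D) :
    ∃ c C r0 : ℝ, 0 < c ∧ 0 < C ∧ 0 < r0 ∧ ∀ δ : ℕ → ℝ, (∀ i, 0 < δ i) → Tendsto δ atTop (𝓝 0) →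
      ∀ μ : ProbabilityMeasure (NonemptyCompacts ℂ),
        Tendsto (fun i => clusLaw R (δ i)) atTop (𝓝 μ) →
        Bds (μ : Measure (NonemptyCompacts ℂ)) (fun K : NonemptyCompacts ℂ => (K : Set ℂ))
          (5 / 48) A c C r0 := by
  obtain ⟨s0, hs0, hth⟩ := hAc.exists_thickening_subset_open (isOpen_D R) hAD
  have hball : ∀ z ∈ A, Metric.ball z s0 ⊆ R.D := fun z hz =>
    (Metric.ball_subset_thickening hz s0).trans hth
  obtain ⟨M, hM⟩ := Metric.isBounded_iff.mp hAc.isBounded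
  obtain ⟨η, hη⟩ : ∃ η, η = s0 / 8 := ⟨_, rfl⟩
  have hη0 : 0 < η := by rw [hη]; positivity
  have hsq : ∀ z ∈ A, csq z (2 * η) ⊆ R.D := fun z hz =>
    (csq_ball (by rw [hη]; linarith)).trans (hball z hz)
  obtain ⟨c, hc, h1⟩ := one_mesh hAr R hη0
  obtain ⟨C, hC, h2⟩ := two_mesh hAr
  obtain ⟨M1, hM1⟩ : ∃ M1, M1 = max M 0 + η := ⟨_, rfl⟩
  have hM10 : 0 < M1 := by
    rw [hM1]
    have := le_max_right M 0
    linarith
  have hdist : ∀ z ∈ A, ∀ w ∈ A, ∀ s : ℝ, s ≤ η → max (dist z w) s ≤ M1 := by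
    intro z hz w hw s hs
    rw [hM1]
    apply max_le
    · have := hM hz hw
      have h3 := le_max_left M 0
      linarith
    · have := le_max_right M 0
      linarith
  refine ⟨c, C * (1 / η) ^ ((5 : ℝ) / 24) * (M1 ^ ((5 : ℝ) / 48) + η ^ ((5 : ℝ) / 48)) *
    2 ^ (2 * (5 / 48) : ℝ), η / 256, hc, by positivity, by positivity, ?_⟩
  intro δ hδ hlim μ hμ
  refine bds_lim hμ (by norm_num) (by positivity) ?_ ?_
  · intro z hz r hr hr0
    filter_upwards [hlim.eventually_lt_const (show (0 : ℝ) < r / 16 by positivity),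
      hlim.eventually_lt_const (div_pos R.L0_pos (by norm_num : (0:ℝ) < 4))] with i hi1 hi2
    exact h1 z r (δ i) hr (by linarith) (hsq z hz) (hδ i) (by linarith) (by linarith)
  · intro z hz w hw s hs hs0'
    filter_upwards [hlim.eventually_lt_const (show (0 : ℝ) < s / 16 by positivity)] with i hi
    refine (h2 R z w s η (δ i) hs (by linarith) (hsq z hz) (hsq w hw) (hδ i) (by linarith)).trans ?_
    have hmx : 0 < max (dist z w) s := lt_max_of_lt_right hs
    obtain ⟨D, hD⟩ : ∃ D, D = max (dist z w) s := ⟨_, rfl⟩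
    have hDM : D ≤ M1 := by rw [hD]; exact hdist z hz w hw s (by linarith)
    rw [← hD] at hmx ⊢
    have e1 : (s / η) ^ ((5 : ℝ) / 24) = (1 / η) ^ ((5 : ℝ) / 24) * s ^ (2 * (5 / 48) : ℝ) := by
      rw [show (2 * (5 / 48) : ℝ) = 5 / 24 by norm_num, ← Real.mul_rpow (by positivity) hs.le]
      congr 1
      ring
    have e2 : (η / D) ^ ((5 : ℝ) / 48) = η ^ ((5 : ℝ) / 48) * D ^ (-(5 / 48) : ℝ) := by
      rw [Real.div_rpow hη0.le hmx.le, Real.rpow_neg hmx.le, div_eq_mul_inv]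
    have e3 : 1 ≤ M1 ^ ((5 : ℝ) / 48) * D ^ (-(5 / 48) : ℝ) := by
      rw [Real.rpow_neg hmx.le, ← div_eq_mul_inv, ← Real.div_rpow hM10.le hmx.le]
      apply Real.one_le_rpow _ (by norm_num)
      rw [le_div_iff₀ hmx, one_mul]
      exact hDM
    rw [e1, e2]
    have e4 : 1 + η ^ ((5 : ℝ) / 48) * D ^ (-(5 / 48) : ℝ) ≤
        (M1 ^ ((5 : ℝ) / 48) + η ^ ((5 : ℝ) / 48)) * D ^ (-(5 / 48) : ℝ) := by
      rw [add_mul]
      linarith
    calc C * ((1 / η) ^ ((5 : ℝ) / 24) * s ^ (2 * (5 / 48) : ℝ)) *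
          (1 + η ^ ((5 : ℝ) / 48) * D ^ (-(5 / 48) : ℝ))
        ≤ C * ((1 / η) ^ ((5 : ℝ) / 24) * s ^ (2 * (5 / 48) : ℝ)) *
          ((M1 ^ ((5 : ℝ) / 48) + η ^ ((5 : ℝ) / 48)) * D ^ (-(5 / 48) : ℝ)) :=
          mul_le_mul_of_nonneg_left e4 (by positivity)
      _ = _ := by ring

end Pool.Agent.TH966.GB
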